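import Pool.Agent.W_fc1c69_h9.Defs
import Pool.Agent.W_MP_6d5819_gt.ChartMetric

/-!
# MP_fc1c69_an, Layer 5, stubs `Gram`: the metric in a chart
-/

open Metric Bundle
open scoped ContDiff Manifold Topology

namespace FC9

variable (M : Type) [MetricSpace M] [ChartedSpace E2 M] [IsManifold 𝓘(ℝ, E2) ∞ M]
  [RiemannianBundle (fun x : M => TangentSpace 𝓘(ℝ, E2) x)]
  [IsContMDiffRiemannianBundle 𝓘(ℝ, E2) ∞ E2 (fun x : M => TangentSpace 𝓘(ℝ, E2) x)]

/-- the smooth metric tensor in a chart -/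
theorem gram_tensor (x₀ : M) : ∃ G : E2 → E2 →L[ℝ] E2 →L[ℝ] ℝ,
    ContDiffOn ℝ ∞ G (extChartAt 𝓘(ℝ, E2) x₀).target ∧
    ∀ m ∈ (chartAt E2 x₀).source, ∀ v w : E2,
      G (extChartAt 𝓘(ℝ, E2) x₀ m) v w =
        inner ℝ ((trivializationAt E2 (TangentSpace 𝓘(ℝ, E2)) x₀).symmL ℝ m v)
          ((trivializationAt E2 (TangentSpace 𝓘(ℝ, E2)) x₀).symmL ℝ m w) := by
  obtain ⟨g, hg, hgi⟩ := (inferInstance : IsContMDiffRiemannianBundle 𝓘(ℝ, E2) ∞
    E2 (fun x : M ↦ TangentSpace 𝓘(ℝ, E2) x)).exists_contMDiff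
  set g' : M → E2 →L[ℝ] E2 →L[ℝ] ℝ := fun m =>
    ContinuousLinearMap.inCoordinates E2 (fun x : M ↦ TangentSpace 𝓘(ℝ, E2) x)
      (E2 →L[ℝ] ℝ) (fun x : M ↦ TangentSpace 𝓘(ℝ, E2) x →L[ℝ] ℝ) x₀ m x₀ m (g m)
    with hg'
  refine ⟨fun u => g' ((extChartAt 𝓘(ℝ, E2) x₀).symm u), ?_, ?_⟩
  · have h1 : ContMDiffOn 𝓘(ℝ, E2) 𝓘(ℝ, E2 →L[ℝ] E2 →L[ℝ] ℝ) ∞ g' (chartAt E2 x₀).source := by
      have h2 := (Bundle.Trivialization.contMDiffOn_section_iff
        (IB := 𝓘(ℝ, E2)) (n := ∞) (s := g) (a := (chartAt E2 x₀).source)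
        (trivializationAt (E2 →L[ℝ] E2 →L[ℝ] ℝ)
          (fun x : M ↦ TangentSpace 𝓘(ℝ, E2) x →L[ℝ] TangentSpace 𝓘(ℝ, E2) x →L[ℝ] ℝ) x₀)
        (chartAt E2 x₀).open_source (by simp)).1 hg.contMDiffOn
      exact h2
    have h3 : ContMDiffOn 𝓘(ℝ, E2) 𝓘(ℝ, E2) ∞ (extChartAt 𝓘(ℝ, E2) x₀).symm
        (extChartAt 𝓘(ℝ, E2) x₀).target := contMDiffOn_extChartAt_symm x₀
    have h4 := h1.comp h3 (fun u hu => by
      have := (extChartAt 𝓘(ℝ, E2) x₀).map_target hu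
      rwa [extChartAt_source] at this)
    exact contMDiffOn_iff_contDiffOn.1 h4
  · intro m hm v w
    have hleft : (extChartAt 𝓘(ℝ, E2) x₀).symm (extChartAt 𝓘(ℝ, E2) x₀ m) = m :=
      (extChartAt 𝓘(ℝ, E2) x₀).left_inv (by rwa [extChartAt_source])
    have hb : m ∈ (trivializationAt E2 (fun x : M ↦ TangentSpace 𝓘(ℝ, E2) x) x₀).baseSet := hm
    change g' ((extChartAt 𝓘(ℝ, E2) x₀).symm (extChartAt 𝓘(ℝ, E2) x₀ m)) v w = _
    rw [hleft, hgi, hg']
    rw [inCoordinates_apply_eq₂ hb hb (Set.mem_univ _)]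
    rw [Trivialization.symmL_apply _ hb, Trivialization.symmL_apply _ hb]
    simp

omit [IsContMDiffRiemannianBundle 𝓘(ℝ, E2) ∞ E2 (fun x : M => TangentSpace 𝓘(ℝ, E2) x)] in
theorem gram_eq_symmL (p : M) {y : E2} (hy : y ∈ (extChartAt 𝓘(ℝ, E2) p).target) (i j : Fin 2) :
    gram M p y i j =
      inner ℝ ((trivializationAt E2 (TangentSpace 𝓘(ℝ, E2)) p).symmL ℝ
          ((extChartAt 𝓘(ℝ, E2) p).symm y) (bv i))
        ((trivializationAt E2 (TangentSpace 𝓘(ℝ, E2)) p).symmL ℝ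
          ((extChartAt 𝓘(ℝ, E2) p).symm y) (bv j)) := by
  have hm : (extChartAt 𝓘(ℝ, E2) p).symm y ∈ (chartAt E2 p).source := by
    have := (extChartAt 𝓘(ℝ, E2) p).map_target hy
    rwa [extChartAt_source] at this
  have hr : extChartAt 𝓘(ℝ, E2) p ((extChartAt 𝓘(ℝ, E2) p).symm y) = y :=
    (extChartAt 𝓘(ℝ, E2) p).right_inv hy
  rw [TangentBundle.symmL_trivializationAt hm, hr]
  simp only [modelWithCornersSelf_coe, Set.range_id, mfderivWithin_univ]
  rfl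

/-- PROOF.  Copy the proof of `exists_tensor` (W_MP_6d5819_gt/ChartMetric.lean, there stated with
`ContDiffOn ℝ 2`, proved with `∞`) to get a tensor `G` that is `C^∞` on the target, with
`G (e m) v w = ⟨symmL m v, symmL m w⟩`; as in `norm_sq_symm_eq`
(`TangentBundle.symmL_trivializationAt`, `range 𝓘(ℝ, E2) = univ`, `mfderivWithin_univ`)
`symmL ((extChartAt p).symm y) v = mfderiv (extChartAt p).symm y v`, so
`gram M p y i j = G y (bv i) (bv j)` on the target. -/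
theorem gram_contDiffOn (p : M) (i j : Fin 2) :
    ContDiffOn ℝ ∞ (fun y => gram M p y i j) (extChartAt 𝓘(ℝ, E2) p).target := by
  obtain ⟨G, hG1, hG2⟩ := gram_tensor M p
  have h1 : ContDiffOn ℝ ∞ (fun y => G y (bv i) (bv j)) (extChartAt 𝓘(ℝ, E2) p).target :=
    (hG1.clm_apply contDiffOn_const).clm_apply contDiffOn_const
  refine h1.congr fun y hy => ?_
  have hm : (extChartAt 𝓘(ℝ, E2) p).symm y ∈ (chartAt E2 p).source := by
    have := (extChartAt 𝓘(ℝ, E2) p).map_target hy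
    rwa [extChartAt_source] at this
  have h2 := hG2 _ hm (bv i) (bv j)
  rw [(extChartAt 𝓘(ℝ, E2) p).right_inv hy] at h2
  rw [gram_eq_symmL M p hy, h2]

omit [IsContMDiffRiemannianBundle 𝓘(ℝ, E2) ∞ E2 (fun x : M => TangentSpace 𝓘(ℝ, E2) x)] in
theorem gram_symm (p : M) (y : E2) : gram M p y 1 0 = gram M p y 0 1 := by
  simp only [gram, Matrix.of_apply]
  exact real_inner_comm _ _

omit [IsContMDiffRiemannianBundle 𝓘(ℝ, E2) ∞ E2 (fun x : M => TangentSpace 𝓘(ℝ, E2) x)] in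
/-- PROOF.  `mfderiv (extChartAt p).symm y` is injective on the target (the chart is a left inverse),
so `gram 0 0 = ‖Dv0‖² > 0` and `det = ‖a‖²‖b‖² - ⟨a,b⟩² > 0` by strict Cauchy-Schwarz, `a, b` being
linearly independent (`abs_real_inner_div_norm_mul_norm_eq_one_iff`, or positive definiteness:
`det = 0` would give a nonzero vector `v` with `‖D v‖² = 0`). -/
theorem gram_pos (p : M) {y : E2} (hy : y ∈ (extChartAt 𝓘(ℝ, E2) p).target) :
    0 < gram M p y 0 0 ∧ 0 < (gram M p y).det := by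
  have hm : (extChartAt 𝓘(ℝ, E2) p).symm y ∈
      (trivializationAt E2 (fun x : M ↦ TangentSpace 𝓘(ℝ, E2) x) p).baseSet := by
    have := (extChartAt 𝓘(ℝ, E2) p).map_target hy
    rwa [extChartAt_source] at this
  have hinj : ∀ v : E2, v ≠ 0 → (trivializationAt E2 (TangentSpace 𝓘(ℝ, E2)) p).symmL ℝ
          ((extChartAt 𝓘(ℝ, E2) p).symm y) v ≠ 0 := by
    intro v hv h0
    have h1 := Trivialization.continuousLinearMapAt_symmL (R := ℝ) _ hm v
    rw [h0, map_zero] at h1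
    exact hv h1.symm
  rw [Matrix.det_fin_two, gram_symm, gram_eq_symmL M p hy, gram_eq_symmL M p hy,
    gram_eq_symmL M p hy]
  set D := (trivializationAt E2 (TangentSpace 𝓘(ℝ, E2)) p).symmL ℝ
          ((extChartAt 𝓘(ℝ, E2) p).symm y) with hD
  have hb0 : (bv 0 : E2) ≠ 0 := by
    intro h
    have := congrArg (fun v : E2 => v 0) h
    simp [bv] at this
  have ha : 0 < inner ℝ (D (bv 0)) (D (bv 0)) := by
    rw [real_inner_self_eq_norm_sq]
    have := hinj _ hb0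
    positivity
  refine ⟨ha, ?_⟩
  set A : ℝ := inner ℝ (D (bv 0)) (D (bv 0)) with hA
  set B : ℝ := inner ℝ (D (bv 0)) (D (bv 1)) with hB
  set C : ℝ := inner ℝ (D (bv 1)) (D (bv 1)) with hC
  have hv : (bv 1 - (B / A) • bv 0 : E2) ≠ 0 := by
    intro h
    have := congrArg (fun v : E2 => v 1) h
    simp [bv] at this
  have h1 : 0 < inner ℝ (D (bv 1 - (B / A) • bv 0)) (D (bv 1 - (B / A) • bv 0)) := by
    rw [real_inner_self_eq_norm_sq]
    have := hinj _ hv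
    positivity
  rw [map_sub, map_smul, inner_sub_left, inner_sub_right, inner_sub_right, real_inner_smul_left,
    real_inner_smul_left, real_inner_smul_right, real_inner_smul_right,
    real_inner_comm (D (bv 0)) (D (bv 1))] at h1
  rw [← hA, ← hB, ← hC] at h1
  have h2 : C - B / A * B - (B / A * B - B / A * (B / A * A)) = (A * C - B * B) / A := by
    field_simp
    ring
  rw [h2] at h1
  exact (div_pos_iff_of_pos_right ha).1 h1

/-- PROOF.  `exists_chart_metric_aux` (W_MP_6d5819_gt/ChartMetric.lean) gives a `LocalMetric`; its field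
`asym` at the point `extChartAt p p` with `ε` = half of the coercivity constant
(`exists_coercive`, `exists_upper`) gives
`(√c - ε)‖u - v‖ ≤ dist ≤ (√K + ε)‖u - v‖` for `(u, v)` near `(x₀, x₀)`. -/
theorem dist_comparable [IsRiemannianManifold 𝓘(ℝ, E2) M] (p : M) :
    ∃ r > 0, ∃ L : ℝ, 1 ≤ L ∧
      ball (extChartAt 𝓘(ℝ, E2) p p) r ⊆ (extChartAt 𝓘(ℝ, E2) p).target ∧
      ∀ u ∈ ball (extChartAt 𝓘(ℝ, E2) p p) r, ∀ v ∈ ball (extChartAt 𝓘(ℝ, E2) p p) r,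
        dist ((extChartAt 𝓘(ℝ, E2) p).symm u) ((extChartAt 𝓘(ℝ, E2) p).symm v) ≤ L * ‖u - v‖ ∧
        ‖u - v‖ ≤ L * dist ((extChartAt 𝓘(ℝ, E2) p).symm u) ((extChartAt 𝓘(ℝ, E2) p).symm v) := by
  obtain ⟨G, hG⟩ := Pool.Agent.W_MP_6d5819_gt.exists_chart_metric_aux (E := E2) M p
  set x := extChartAt 𝓘(ℝ, E2) p p with hx
  have hxt : x ∈ (extChartAt 𝓘(ℝ, E2) p).target := mem_extChartAt_target p
  obtain ⟨c, hc, hcG⟩ := Pool.Agent.W_MP_6d5819_gt.exists_coercive (G x) (hG.pos x hxt)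
  obtain ⟨K, hK0, hKG⟩ := Pool.Agent.W_MP_6d5819_gt.exists_upper (G x)
  have hsc : 0 < √c := Real.sqrt_pos.2 hc
  have hev := hG.asym x hxt (√c / 2) (by positivity)
  have hev2 : ∀ᶠ q : E2 × E2 in 𝓝 (x, x), q.1 ∈ (extChartAt 𝓘(ℝ, E2) p).target := by
    have : ∀ᶠ q : E2 in 𝓝 x, q ∈ (extChartAt 𝓘(ℝ, E2) p).target :=
      (isOpen_extChartAt_target p).mem_nhds hxt
    exact continuous_fst.continuousAt.eventually this
  obtain ⟨r, hr, hball⟩ := Metric.eventually_nhds_iff_ball.1 (hev.and hev2)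
  set L : ℝ := max 1 (max (2 / √c) (√K + √c / 2)) with hL
  have hL1 : 1 ≤ L := le_max_left _ _
  have hL2 : 2 / √c ≤ L := (le_max_left _ _).trans (le_max_right _ _)
  have hL3 : √K + √c / 2 ≤ L := (le_max_right _ _).trans (le_max_right _ _)
  have hmem : ∀ u ∈ ball x r, ∀ v ∈ ball x r, ((u, v) : E2 × E2) ∈ ball (x, x) r := by
    intro u hu v hv
    rw [mem_ball, Prod.dist_eq, max_lt_iff]
    exact ⟨hu, hv⟩
  refine ⟨r, hr, L, hL1, fun u hu => (hball (u, u) (hmem u hu u hu)).2, ?_⟩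
  intro u hu v hv
  have h1 := (hball (u, v) (hmem u hu v hv)).1
  simp only at h1
  set d := dist ((extChartAt 𝓘(ℝ, E2) p).symm u) ((extChartAt 𝓘(ℝ, E2) p).symm v) with hd
  have hn : 0 ≤ ‖u - v‖ := norm_nonneg _
  have h2 : √(G x (u - v) (u - v)) ≤ √K * ‖u - v‖ := by
    rw [Real.sqrt_le_left (by positivity), mul_pow, Real.sq_sqrt hK0]
    exact hKG _
  have h3 : √c * ‖u - v‖ ≤ √(G x (u - v) (u - v)) := by
    apply Real.le_sqrt_of_sq_le
    rw [mul_pow, Real.sq_sqrt hc.le]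
    exact hcG _
  obtain ⟨h4, h5⟩ := abs_le.1 h1
  constructor
  · calc d ≤ (√K + √c / 2) * ‖u - v‖ := by linarith
      _ ≤ L * ‖u - v‖ := by gcongr
  · have h6 : √c / 2 * ‖u - v‖ ≤ d := by linarith
    calc ‖u - v‖ = 2 / √c * (√c / 2 * ‖u - v‖) := by field_simp
      _ ≤ 2 / √c * d := by gcongr
      _ ≤ L * d := by
        have : 0 ≤ d := dist_nonneg
        gcongr

end FC9
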