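import Pool.Agent.W_fc1c69_h9.Param
import Pool.Agent.W_fc1c69_h9.Gram

/-!
# MP_fc1c69_an, Layer 5: isothermal charts of a Riemannian surface
-/

open Metric Bundle
open scoped ContDiff Manifold Topology

namespace FC9

theorem px_comp_smul (s : ℝ) (f : ℂ → ℝ) :
    FC34.px (fun x => f (s • x)) = fun x => s • FC34.px f (s • x) := by
  funext x
  simp only [FC34.px]
  rw [fderiv_comp_smul]
  rfl

theorem py_comp_smul (s : ℝ) (f : ℂ → ℝ) :
    FC34.py (fun x => f (s • x)) = fun x => s • FC34.py f (s • x) := by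
  funext x
  simp only [FC34.py]
  rw [fderiv_comp_smul]
  rfl

theorem lap_comp_smul (s : ℝ) (f : ℂ → ℝ) (x : ℂ) :
    FC34.lap (fun x => f (s • x)) x = s ^ 2 * FC34.lap f (s • x) := by
  have h0 : ∀ g : ℂ → ℝ, fderiv ℝ (fun x => s • g x) = s • fderiv ℝ g := by
    intro g
    exact fderiv_const_smul_field (f := g) s
  have h1 : ∀ g : ℂ → ℝ, FC34.px (fun x => s • g x) = fun x => s • FC34.px g x := by
    intro g
    funext x
    simp only [FC34.px]
    rw [h0]
    rfl
  have h2 : ∀ g : ℂ → ℝ, FC34.py (fun x => s • g x) = fun x => s • FC34.py g x := by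
    intro g
    funext x
    simp only [FC34.py]
    rw [h0]
    rfl
  simp only [FC34.lap]
  rw [px_comp_smul, py_comp_smul, h1, h2, px_comp_smul, py_comp_smul]
  simp only [smul_eq_mul]
  ring

theorem lap_congr_nhds {f g : ℂ → ℝ} {x : ℂ} (h : f =ᶠ[𝓝 x] g) : FC34.lap f x = FC34.lap g x := by
  have hx : FC34.px f =ᶠ[𝓝 x] FC34.px g := by
    filter_upwards [h.eventuallyEq_nhds] with y hy
    simp only [FC34.px]
    rw [hy.fderiv_eq]
  have hy : FC34.py f =ᶠ[𝓝 x] FC34.py g := by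
    filter_upwards [h.eventuallyEq_nhds] with y hy
    simp only [FC34.py]
    rw [hy.fderiv_eq]
  simp only [FC34.lap, FC34.px, FC34.py] at *
  rw [hx.fderiv_eq, hy.fderiv_eq]

/-- A disc contained in `ball 0 4` has radius at most `4`. -/
theorem radius_le {x : ℂ} {r : ℝ} (hr : 0 < r) (h : ball x r ⊆ ball (0 : ℂ) 4) : r ≤ 4 := by
  by_contra hlt
  push Not at hlt
  have hx : x ∈ ball (0 : ℂ) 4 := h (mem_ball_self hr)
  rw [mem_ball_zero_iff] at hx
  by_cases h0 : x = 0
  · have : (4 : ℂ) ∈ ball x r := by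
      rw [h0, mem_ball_zero_iff]
      simpa using hlt
    have := h this
    rw [mem_ball_zero_iff] at this
    norm_num at this
  · have hn : 0 < ‖x‖ := norm_pos_iff.2 h0
    have h1 : ((4 / ‖x‖ : ℝ) • x) ∈ ball x r := by
      rw [mem_ball, dist_eq_norm]
      have : (4 / ‖x‖ : ℝ) • x - x = ((4 / ‖x‖ - 1 : ℝ)) • x := by
        rw [sub_smul, one_smul]
      rw [this, norm_smul, Real.norm_eq_abs]
      have h2 : 0 ≤ 4 / ‖x‖ - 1 := by
        rw [sub_nonneg, le_div_iff₀ hn]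
        linarith
      rw [abs_of_nonneg h2, sub_mul, div_mul_cancel₀ _ hn.ne']
      linarith
    have h3 := h h1
    rw [mem_ball_zero_iff, norm_smul, Real.norm_eq_abs, abs_of_nonneg (by positivity),
      div_mul_cancel₀ _ hn.ne'] at h3
    exact lt_irrefl _ h3

variable (M : Type) [MetricSpace M] [ChartedSpace E2 M] [IsManifold 𝓘(ℝ, E2) ∞ M]
  [RiemannianBundle (fun x : M => TangentSpace 𝓘(ℝ, E2) x)]
  [IsContMDiffRiemannianBundle 𝓘(ℝ, E2) ∞ E2 (fun x : M => TangentSpace 𝓘(ℝ, E2) x)]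

/-- Every point of a smooth Riemannian surface is the centre of an isothermal chart. -/
theorem exists_isoChart [IsRiemannianManifold 𝓘(ℝ, E2) M] (p : M) :
    ∃ q₁ l L : ℝ, ∃ C : FC34.IsoChart M (IsEigenfunction M) q₁ l L, C.c 0 = p := by
  set e := extChartAt 𝓘(ℝ, E2) p with he
  have hopen : IsOpen e.target := isOpen_extChartAt_target p
  have hx₀ : e p ∈ e.target := mem_extChartAt_target p
  obtain ⟨ρ, L₁, q₁, l, Z, q, P⟩ := exists_isoParam hopen (g := gram M p)
    (gram_contDiffOn M p) (fun y hy => (gram_pos M p hy).1) (fun y _ => gram_symm M p y)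
    (fun y hy => (gram_pos M p hy).2) hx₀
  obtain ⟨r, hr, L₂, hL₂, hball, hcomp⟩ := dist_comparable M p
  rw [← he] at hball hcomp
  have hL₁ := P.hL
  have hρ := P.hρ
  have hL12 : 1 ≤ L₁ * L₂ := one_le_mul_of_one_le_of_one_le hL₁ hL₂
  have hL12' : 0 < L₁ * L₂ := by linarith
  -- a metric ball around `p` which is covered by the parametrisation
  have hnear : {m : M | m ∈ e.source ∧ e m ∈ Z '' ball (0 : ℂ) ρ ∧ e m ∈ ball (e p) r} ∈ 𝓝 p := by
    have h1 : e.source ∈ 𝓝 p := extChartAt_source_mem_nhds p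
    have h2 : ContinuousAt e p := continuousAt_extChartAt p
    have h3 : Z '' ball (0 : ℂ) ρ ∈ 𝓝 (e p) := P.nhds
    exact Filter.inter_mem h1 (Filter.inter_mem (h2.preimage_mem_nhds h3)
      (h2.preimage_mem_nhds (ball_mem_nhds _ hr)))
  obtain ⟨δ, hδ, hδs⟩ := Metric.mem_nhds_iff.1 hnear
  -- the scale
  obtain ⟨s, hs, hs1, hsρ, hsr, hsδ⟩ : ∃ s : ℝ, 0 < s ∧ s ≤ 1 ∧ 4 * s ≤ ρ ∧ L₁ * (4 * s) ≤ r ∧
      8 * s * (L₁ * L₂) ≤ δ := by
    refine ⟨min (min 1 (ρ / 4)) (min (r / (4 * L₁)) (δ / (8 * (L₁ * L₂)))), ?_, ?_, ?_, ?_, ?_⟩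
    · have : 0 < L₁ := by linarith
      positivity
    · exact (min_le_left _ _).trans (min_le_left _ _)
    · have := (min_le_left (min 1 (ρ / 4)) (min (r / (4 * L₁)) (δ / (8 * (L₁ * L₂))))).trans
        (min_le_right _ _)
      linarith
    · have h1 := (min_le_right (min 1 (ρ / 4)) (min (r / (4 * L₁)) (δ / (8 * (L₁ * L₂))))).trans
        (min_le_left _ _)
      have h2 : 0 < 4 * L₁ := by linarith
      rw [le_div_iff₀ h2] at h1
      linarith
    · have h1 := (min_le_right (min 1 (ρ / 4)) (min (r / (4 * L₁)) (δ / (8 * (L₁ * L₂))))).trans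
        (min_le_right _ _)
      have h2 : 0 < 8 * (L₁ * L₂) := by linarith
      rw [le_div_iff₀ h2] at h1
      linarith
  have hscale : ∀ z ∈ ball (0 : ℂ) 4, s • z ∈ ball (0 : ℂ) ρ := by
    intro z hz
    rw [mem_ball_zero_iff] at hz ⊢
    rw [norm_smul, Real.norm_eq_abs, abs_of_pos hs]
    nlinarith
  have h0ρ : (0 : ℂ) ∈ ball (0 : ℂ) ρ := mem_ball_self hρ
  have hZr : ∀ z ∈ ball (0 : ℂ) 4, Z (s • z) ∈ ball (e p) r := by
    intro z hz
    have h1 := P.lip _ (hscale z hz) _ h0ρ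
    rw [P.zero, sub_zero, norm_smul, Real.norm_eq_abs, abs_of_pos hs] at h1
    rw [mem_ball_zero_iff] at hz
    rw [mem_ball, dist_eq_norm]
    have h2 : L₁ * (s * ‖z‖) < L₁ * (4 * s) := by
      apply mul_lt_mul_of_pos_left _ (by linarith)
      nlinarith
    linarith
  have hsmulsub : ∀ x y : ℂ, ‖s • x - s • y‖ = s * ‖x - y‖ := by
    intro x y
    rw [← smul_sub, norm_smul, Real.norm_eq_abs, abs_of_pos hs]
  set L : ℝ := L₁ * L₂ / s with hLdef
  have hLs : L₁ * L₂ ≤ L := by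
    rw [hLdef, le_div_iff₀ hs]
    nlinarith
  have hL1 : 1 ≤ L := hL12.trans hLs
  set c : ℂ → M := fun z => e.symm (Z (s • z)) with hc
  have hc0 : c 0 = p := by
    simp only [hc, smul_zero, P.zero]
    exact extChartAt_to_inv p
  have hlip : ∀ x ∈ ball (0 : ℂ) 4, ∀ y ∈ ball (0 : ℂ) 4, dist (c x) (c y) ≤ (L₁ * L₂) * s * ‖x - y‖ := by
    intro x hx y hy
    have h1 := (hcomp _ (hZr x hx) _ (hZr y hy)).1
    have h2 := P.lip _ (hscale x hx) _ (hscale y hy)
    rw [hsmulsub] at h2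
    calc dist (c x) (c y) ≤ L₂ * ‖Z (s • x) - Z (s • y)‖ := h1
      _ ≤ L₂ * (L₁ * (s * ‖x - y‖)) := by gcongr
      _ = _ := by ring
  have hanti : ∀ w ∈ ball (0 : ℂ) ρ, Z w ∈ ball (e p) r → ∀ x ∈ ball (0 : ℂ) 4,
      ‖w - s • x‖ ≤ (L₁ * L₂) * dist (e.symm (Z w)) (c x) := by
    intro w hw hw' x hx
    have h1 := (hcomp _ hw' _ (hZr x hx)).2
    have h2 := P.antilip _ hw _ (hscale x hx)
    calc ‖w - s • x‖ ≤ L₁ * ‖Z w - Z (s • x)‖ := h2
      _ ≤ L₁ * (L₂ * dist (e.symm (Z w)) (c x)) := by gcongr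
      _ = _ := by ring
  have hcsm : ContDiffOn ℝ 3 (fun z : ℂ => Z (s • z)) (ball (0 : ℂ) 4) := by
    refine P.smooth.comp (t := ball (0 : ℂ) ρ) ?_ ?_
    · fun_prop
    · intro z hz
      exact hscale z hz
  have husm : ∀ lam φ, IsEigenfunction M lam φ →
      ContDiffOn ℝ 3 (fun y => φ (e.symm y)) e.target := by
    intro lam φ hφ
    have h1 : ContMDiffOn 𝓘(ℝ, E2) 𝓘(ℝ, ℝ) ∞ (fun y => φ (e.symm y)) e.target :=
      hφ.smooth.comp_contMDiffOn (contMDiffOn_extChartAt_symm p)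
    have h2 := contMDiffOn_iff_contDiffOn.1 h1
    refine h2.of_le ?_
    have h3 : ((3 : ℕ∞) : WithTop ℕ∞) ≤ ((⊤ : ℕ∞) : WithTop ℕ∞) := WithTop.coe_le_coe.2 le_top
    exact h3
  refine ⟨s ^ 2 * q₁, s ^ 3 * l, L, ⟨c, fun z => s ^ 2 * q (s • z), ?_, ?_, hL1, ?_, ?_, ?_, ?_, ?_, ?_, ?_,
    ?_⟩, hc0⟩
  · have := P.hq₁
    positivity
  · have := P.hl
    positivity
  · intro x hx y hy
    refine (hlip x hx y hy).trans ?_
    have h1 : L₁ * L₂ * s ≤ L := by
      refine le_trans ?_ hLs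
      nlinarith
    gcongr
  · intro x hx y hy
    have h1 := hanti _ (hscale x hx) (hZr x hx) y hy
    rw [hsmulsub] at h1
    change s * ‖x - y‖ ≤ L₁ * L₂ * dist (c x) (c y) at h1
    rw [hLdef, div_mul_eq_mul_div, le_div_iff₀ hs]
    linarith
  · intro x hx r' hr' hsub m hm
    have hr4 : r' ≤ 4 := radius_le hr' hsub
    rw [mem_ball] at hm
    have hmL : r' / L ≤ 4 * s := by
      rw [div_le_iff₀ (by linarith)]
      have : 4 * s * L = 4 * (L₁ * L₂) := by
        rw [hLdef]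
        field_simp
      rw [this]
      nlinarith
    have hmp : m ∈ ball p δ := by
      rw [mem_ball]
      have h1 : dist m p ≤ dist m (c x) + dist (c x) (c 0) := by
        have := dist_triangle m (c x) (c 0)
        rwa [hc0] at this ⊢
      have h2 := hlip x hx 0 (mem_ball_self (by norm_num))
      rw [sub_zero] at h2
      have h3 : ‖x‖ < 4 := by rwa [mem_ball_zero_iff] at hx
      have h4 : L₁ * L₂ * s * ‖x‖ ≤ L₁ * L₂ * s * 4 := by gcongr
      nlinarith
    obtain ⟨hms, ⟨w, hw, hwm⟩, hmr⟩ := hδs hmp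
    have hmw : e.symm (Z w) = m := by
      rw [hwm]
      exact e.left_inv hms
    have hwr : Z w ∈ ball (e p) r := by rw [hwm]; exact hmr
    have h1 := hanti w hw hwr x hx
    rw [hmw] at h1
    have h2 : ‖w - s • x‖ < s * r' := by
      have h3 : L₁ * L₂ * dist m (c x) < L₁ * L₂ * (r' / L) :=
        mul_lt_mul_of_pos_left hm hL12'
      have h4 : L₁ * L₂ * (r' / L) = s * r' := by
        rw [hLdef]
        field_simp
      linarith
    refine ⟨s⁻¹ • w, ?_, ?_⟩
    · rw [mem_ball, dist_eq_norm]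
      have h3 : s⁻¹ • w - x = s⁻¹ • (w - s • x) := by
        rw [smul_sub, smul_smul, inv_mul_cancel₀ hs.ne', one_smul]
      rw [h3, norm_smul, Real.norm_eq_abs, abs_of_pos (inv_pos.2 hs), inv_mul_lt_iff₀ hs]
      exact h2
    · simp only [hc]
      rw [smul_smul, mul_inv_cancel₀ hs.ne', one_smul]
      exact hmw
  · intro x hx
    have h1 := P.qd _ (hscale x hx)
    have h2 : DifferentiableAt ℝ (fun z : ℂ => q (s • z)) x := by
      refine DifferentiableAt.comp x (g := q) (f := fun z : ℂ => s • z) h1 ?_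
      fun_prop
    exact h2.const_mul _
  · intro x hx
    have h1 := P.ql _ (hscale x hx)
    have h2 : DifferentiableAt ℝ (fun z : ℂ => q (s • z)) x := by
      refine DifferentiableAt.comp x (g := q) (f := fun z : ℂ => s • z) (P.qd _ (hscale x hx)) ?_
      fun_prop
    rw [fderiv_const_mul h2, norm_smul, fderiv_comp_smul, norm_smul, Real.norm_eq_abs,
      Real.norm_eq_abs, abs_of_pos hs, abs_of_pos (by positivity)]
    calc s ^ 2 * (s * ‖fderiv ℝ q (s • x)‖) ≤ s ^ 2 * (s * l) := by gcongr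
      _ = s ^ 3 * l := by ring
  · intro x hx
    have h1 := P.qb _ (hscale x hx)
    constructor
    · have := h1.1
      positivity
    · have := h1.2
      gcongr
  · intro lam φ hφ
    refine (husm lam φ hφ).comp hcsm ?_
    intro z hz
    exact P.maps _ (hscale z hz)
  · intro lam φ hφ x hx
    have h1 := P.lap _ (husm lam φ hφ) _ (hscale x hx)
    have h2 := hφ.eq p _ (P.maps _ (hscale x hx))
    rw [← he] at h2
    have h3 : FC34.lap (fun x => φ (c x)) x =
        s ^ 2 * FC34.lap (fun z => φ (e.symm (Z z))) (s • x) :=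
      lap_comp_smul s (fun z => φ (e.symm (Z z))) x
    rw [h3, h1, h2]
    simp only [hc]
    ring

end FC9
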