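import Pool.Agent.W_fc1c69_h9.BelZ

/-!
# MP_fc1c69_an, Layer 5, stub `Bel`: local solution of the Beltrami equation
-/

open Complex MeasureTheory Metric
open scoped ContDiff ComplexConjugate

namespace FC9

theorem Bel_split (u : ℂ → ℂ) (z v : ℂ) :
    fderiv ℝ u z v = FC34.dz u z * v + FC34.dbar u z * conj v := by
  have h : v = (v.re : ℝ) • (1 : ℂ) + (v.im : ℝ) • Complex.I := by
    simp [Complex.re_add_im]
  have h1 : fderiv ℝ u z v = (v.re : ℂ) * FC34.px u z + (v.im : ℂ) * FC34.py u z := by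
    conv_lhs => rw [h]
    rw [map_add, map_smul, map_smul, Complex.real_smul, Complex.real_smul]
    rfl
  have h2 : (v : ℂ) = (v.re : ℂ) + (v.im : ℂ) * Complex.I := (Complex.re_add_im v).symm
  have h3 : conj v = (v.re : ℂ) - (v.im : ℂ) * Complex.I := by
    apply Complex.ext <;> simp
  have h4 : FC34.dz u z * v = FC34.dz u z * ((v.re : ℂ) + (v.im : ℂ) * Complex.I) := by
    rw [← h2]
  rw [h1, h3, h4]
  unfold FC34.dz FC34.dbar
  have hI : Complex.I * Complex.I = -1 := Complex.I_mul_I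
  linear_combination ((v.im : ℂ) * FC34.py u z) * hI

theorem Bel_chain {W : ℂ → ℂ} (hW : ContDiff ℝ 3 W) (a z : ℂ) :
    FC34.dz (fun z => W (z + a * conj z)) z =
        FC34.dz W (z + a * conj z) + conj a * FC34.dbar W (z + a * conj z) ∧
      FC34.dbar (fun z => W (z + a * conj z)) z =
        a * FC34.dz W (z + a * conj z) + FC34.dbar W (z + a * conj z) := by
  set ζ := z + a * conj z with hζ
  have hA : HasFDerivAt (fun z : ℂ => z + a * conj z)
      (ContinuousLinearMap.id ℝ ℂ + a • (Complex.conjCLE : ℂ →L[ℝ] ℂ)) z := by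
    refine (hasFDerivAt_id z).add ?_
    exact (Complex.conjCLE.hasFDerivAt).const_mul a
  have hWd : HasFDerivAt W (fderiv ℝ W ζ) ζ :=
    ((hW.differentiable (by norm_num)) ζ).hasFDerivAt
  have hc := hWd.comp z hA
  have hf : fderiv ℝ (fun z => W (z + a * conj z)) z = (fderiv ℝ W ζ).comp
      (ContinuousLinearMap.id ℝ ℂ + a • (Complex.conjCLE : ℂ →L[ℝ] ℂ)) := hc.fderiv
  have hx : FC34.px (fun z => W (z + a * conj z)) z =
      FC34.dz W ζ * (1 + a) + FC34.dbar W ζ * (1 + conj a) := by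
    unfold FC34.px
    rw [hf]
    show fderiv ℝ W ζ ((1 : ℂ) + a * conj (1 : ℂ)) = _
    rw [Bel_split]
    simp
  have hy : FC34.py (fun z => W (z + a * conj z)) z =
      FC34.dz W ζ * (Complex.I * (1 - a)) - FC34.dbar W ζ * (Complex.I * (1 - conj a)) := by
    unfold FC34.py
    rw [hf]
    show fderiv ℝ W ζ (Complex.I + a * conj Complex.I) = _
    rw [Bel_split]
    simp
    ring
  have hI : Complex.I * Complex.I = -1 := Complex.I_mul_I
  constructor
  · show (FC34.px _ z - Complex.I * FC34.py _ z) / 2 = _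
    rw [hx, hy]
    linear_combination (-(1 / 2) * FC34.dz W ζ * (1 - a) + (1 / 2) * FC34.dbar W ζ * (1 - conj a)) * hI
  · show (FC34.px _ z + Complex.I * FC34.py _ z) / 2 = _
    rw [hx, hy]
    linear_combination ((1 / 2) * FC34.dz W ζ * (1 - a) - (1 / 2) * FC34.dbar W ζ * (1 - conj a)) * hI

/-- PROOF.  Put `a = μ 0`, `|a| < 1`, `A z = z + a z̄` (invertible real linear map with inverse
`B ζ = (ζ - a ζ̄) / (1 - |a|²)`).  `ν ζ = (μ (B ζ) - a) / (1 - ā μ (B ζ))` is smooth near `0` with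
`ν 0 = 0`; multiply by a smooth bump function that is `1` near `0` and supported where `B ζ ∈ U` and
`|μ (B ζ)| < 1`, to get a smooth compactly supported function on `ℂ`; `beltrami_zero` gives `W`.
`w z = W (A z)`: by the chain rule `dz w z = dz W + ā dbar W`, `dbar w z = a dz W + dbar W` (at `A z`), so
with `dbar W = ν dz W`: `dz w = (1 + ā ν) dz W`, `dbar w = (a + ν) dz W`, and `a + ν = μ (1 + ā ν)`.
`1 + ā ν ≠ 0` because `(1 + ā ν)(1 - ā μ) = 1 - |a|² ≠ 0`.  Choose `r` small. -/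
theorem beltrami {μ : ℂ → ℂ} {U : Set ℂ} (hU : IsOpen U) (h0U : (0 : ℂ) ∈ U)
    (hμ : ContDiffOn ℝ ∞ μ U) (h1 : ‖μ 0‖ < 1) :
    ∃ r > 0, ball (0 : ℂ) r ⊆ U ∧ ∃ w : ℂ → ℂ, ContDiff ℝ 3 w ∧ w 0 = 0 ∧
      ∀ z ∈ ball (0 : ℂ) r, FC34.dbar w z = μ z * FC34.dz w z ∧ FC34.dz w z ≠ 0 := by
  set a : ℂ := μ 0 with ha
  have ha1 : ‖a‖ ^ 2 < 1 := by
    have := norm_nonneg a
    nlinarith
  have haa : a * conj a = ((‖a‖ ^ 2 : ℝ) : ℂ) := by
    rw [Complex.mul_conj, Complex.normSq_eq_norm_sq]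
  set k : ℂ := 1 - a * conj a with hk
  have hk0 : k ≠ 0 := by
    rw [hk, haa]
    intro h
    have h2 : ((1 - ‖a‖ ^ 2 : ℝ) : ℂ) = 0 := by
      rw [← h]
      push_cast
      ring
    have h3 : (1 - ‖a‖ ^ 2 : ℝ) = 0 := Complex.ofReal_eq_zero.1 h2
    linarith
  let B : ℂ → ℂ := fun ζ => k⁻¹ * (ζ - a * conj ζ)
  have hBs : ContDiff ℝ ∞ B := by
    have hc : ContDiff ℝ ∞ (fun ζ : ℂ => conj ζ) := Complex.conjCLE.contDiff
    exact contDiff_const.mul (contDiff_id.sub (contDiff_const.mul hc))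
  have hBA : ∀ z, B (z + a * conj z) = z := by
    intro z
    have hcc : conj (z + a * conj z) = conj z + conj a * z := by
      simp
    show k⁻¹ * (z + a * conj z - a * conj (z + a * conj z)) = z
    rw [hcc, inv_mul_eq_iff_eq_mul₀ hk0, hk]
    ring
  have hB0 : B 0 = 0 := by
    show k⁻¹ * (0 - a * conj 0) = 0
    simp
  -- the good set
  have hden : ∀ m : ℂ, ‖m‖ < 1 → 1 - conj a * m ≠ 0 := by
    intro m hm h
    have h2 : conj a * m = 1 := by linear_combination -h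
    have h3 : ‖conj a * m‖ = 1 := by rw [h2, norm_one]
    rw [norm_mul, Complex.norm_conj] at h3
    have := norm_nonneg a
    have := norm_nonneg m
    nlinarith
  have hopen : IsOpen {z : ℂ | z ∈ U ∧ ‖μ z‖ < 1} := by
    have := hμ.continuousOn.norm.isOpen_inter_preimage hU (isOpen_Iio (a := (1 : ℝ)))
    exact this
  have hΩ : IsOpen {ζ : ℂ | B ζ ∈ U ∧ ‖μ (B ζ)‖ < 1} := hopen.preimage hBs.continuous
  have h0Ω : (0 : ℂ) ∈ {ζ : ℂ | B ζ ∈ U ∧ ‖μ (B ζ)‖ < 1} := by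
    show B 0 ∈ U ∧ ‖μ (B 0)‖ < 1
    rw [hB0]
    exact ⟨h0U, h1⟩
  obtain ⟨ρ, hρ, hρΩ⟩ := nhds_basis_closedBall.mem_iff.1 (hΩ.mem_nhds h0Ω)
  let χ : ContDiffBump (0 : ℂ) := ⟨ρ / 2, ρ, by positivity, by linarith⟩
  let ν : ℂ → ℂ := fun ζ => (μ (B ζ) - a) / (1 - conj a * μ (B ζ))
  have hν : ∀ ζ ∈ {ζ : ℂ | B ζ ∈ U ∧ ‖μ (B ζ)‖ < 1}, ContDiffAt ℝ ∞ ν ζ := by
    rintro ζ ⟨hζ1, hζ2⟩
    have h2 : ContDiffAt ℝ ∞ (fun ζ => μ (B ζ)) ζ :=
      (hμ.contDiffAt (hU.mem_nhds hζ1)).comp ζ hBs.contDiffAt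
    have h3 : ContDiffAt ℝ ∞ (fun ζ => 1 - conj a * μ (B ζ)) ζ :=
      contDiffAt_const.sub (contDiffAt_const.mul h2)
    have h4 : ContDiffAt ℝ ∞ (fun ζ => (μ (B ζ) - a) * (1 - conj a * μ (B ζ))⁻¹) ζ :=
      (h2.sub contDiffAt_const).mul (h3.inv (hden _ hζ2))
    exact h4
  let ν' : ℂ → ℂ := fun ζ => ((χ ζ : ℝ) : ℂ) * ν ζ
  have hχs : ContDiff ℝ ∞ (fun ζ : ℂ => ((χ ζ : ℝ) : ℂ)) := Complex.ofRealCLM.contDiff.comp χ.contDiff
  have hν's : ContDiff ℝ ∞ ν' := by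
    rw [contDiff_iff_contDiffAt]
    intro ζ
    by_cases hζ : ζ ∈ closedBall (0 : ℂ) ρ
    · exact hχs.contDiffAt.mul (hν ζ (hρΩ hζ))
    · have h2 : ν' =ᶠ[nhds ζ] fun _ => (0 : ℂ) := by
        have h3 : (closedBall (0 : ℂ) ρ)ᶜ ∈ nhds ζ := isClosed_closedBall.isOpen_compl.mem_nhds hζ
        filter_upwards [h3] with y hy
        have h4 : χ y = 0 := χ.zero_of_le_dist (by
          have h5 : ¬ dist y 0 ≤ ρ := hy
          exact (not_le.1 h5).le)
        show ((χ y : ℝ) : ℂ) * ν y = 0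
        rw [h4]
        simp
      exact contDiffAt_const.congr_of_eventuallyEq h2
  have hν'c : HasCompactSupport ν' := by
    refine HasCompactSupport.intro (isCompact_closedBall (0 : ℂ) ρ) ?_
    intro y hy
    have h4 : χ y = 0 := χ.zero_of_le_dist (by
      have h5 : ¬ dist y 0 ≤ ρ := hy
      exact (not_le.1 h5).le)
    show ((χ y : ℝ) : ℂ) * ν y = 0
    rw [h4]
    simp
  have hν'0 : ν' 0 = 0 := by
    show ((χ 0 : ℝ) : ℂ) * ((μ (B 0) - a) / (1 - conj a * μ (B 0))) = 0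
    rw [hB0, ← ha]
    simp
  obtain ⟨r₀, hr₀, W, hWs, hW0, hW⟩ := beltrami_zero hν's hν'c hν'0
  have hAs : ContDiff ℝ 3 (fun z : ℂ => z + a * conj z) := by
    have hc : ContDiff ℝ 3 (fun ζ : ℂ => conj ζ) := Complex.conjCLE.contDiff
    exact contDiff_id.add (contDiff_const.mul hc)
  have ha1' : ‖a‖ < 1 := h1
  have hnA : ∀ z : ℂ, ‖z + a * conj z‖ ≤ 2 * ‖z‖ := by
    intro z
    refine (norm_add_le _ _).trans ?_
    rw [norm_mul, Complex.norm_conj]
    have := norm_nonneg z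
    nlinarith
  have key : ∀ z ∈ ball (0 : ℂ) (min r₀ (ρ / 2) / 2), z + a * conj z ∈ ball (0 : ℂ) r₀ ∧
      z + a * conj z ∈ ball (0 : ℂ) (ρ / 2) := by
    intro z hz
    rw [mem_ball_zero_iff] at hz
    have h2 := hnA z
    have h3 : ‖z + a * conj z‖ < min r₀ (ρ / 2) := by linarith
    rw [mem_ball_zero_iff, mem_ball_zero_iff]
    exact ⟨h3.trans_le (min_le_left _ _), h3.trans_le (min_le_right _ _)⟩
  have key2 : ∀ z ∈ ball (0 : ℂ) (min r₀ (ρ / 2) / 2), z ∈ U ∧ ‖μ z‖ < 1 := by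
    intro z hz
    have h2 := (key z hz).2
    have h3 : z + a * conj z ∈ closedBall (0 : ℂ) ρ := by
      rw [mem_ball_zero_iff] at h2
      rw [mem_closedBall_zero_iff]
      linarith
    have h4 := hρΩ h3
    have h5 : B (z + a * conj z) ∈ U ∧ ‖μ (B (z + a * conj z))‖ < 1 := h4
    rwa [hBA] at h5
  refine ⟨min r₀ (ρ / 2) / 2, by positivity, fun z hz => (key2 z hz).1,
    fun z => W (z + a * conj z), hWs.comp hAs, ?_, ?_⟩
  · show W (0 + a * conj 0) = 0
    simpa using hW0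
  · intro z hz
    obtain ⟨g1, g2⟩ := key z hz
    obtain ⟨g3, g4⟩ := key2 z hz
    obtain ⟨c1, c2⟩ := Bel_chain hWs a z
    obtain ⟨w1, w2⟩ := hW _ g1
    have hχ1 : χ (z + a * conj z) = 1 := χ.one_of_mem_closedBall (by
      show z + a * conj z ∈ closedBall (0 : ℂ) (ρ / 2)
      exact ball_subset_closedBall g2)
    have hd := hden _ g4
    have hν1 : ν' (z + a * conj z) = (μ z - a) / (1 - conj a * μ z) := by
      show ((χ (z + a * conj z) : ℝ) : ℂ) * ((μ (B (z + a * conj z)) - a) /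
        (1 - conj a * μ (B (z + a * conj z)))) = _
      rw [hχ1, hBA]
      simp
    rw [c1, c2, w1, hν1]
    set X := FC34.dz W (z + a * conj z) with hX
    set E := 1 - conj a * μ z with hE
    have e1 : X + conj a * ((μ z - a) / E * X) = k / E * X := by
      have h9 : k = E + conj a * (μ z - a) := by
        rw [hk, hE]
        ring
      rw [h9]
      field_simp
    have e2 : a * X + (μ z - a) / E * X = μ z * (k / E * X) := by
      have h9 : μ z * k = a * E + (μ z - a) := by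
        rw [hk, hE]
        ring
      have h10 : μ z * (k / E * X) = (μ z * k) / E * X := by ring
      rw [h10, h9]
      field_simp
    rw [e1, e2]
    exact ⟨rfl, mul_ne_zero (div_ne_zero hk0 hd) w2⟩

end FC9
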