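import Pool.Agent.W_fc1c69_h9.Neu

/-!
# MP_fc1c69_an, Layer 5, stub `NeuB`: the solution of `γ = m + TT m γ`
-/

open Complex MeasureTheory Metric
open scoped ContDiff

namespace FC9

/-- the terms of the Neumann series -/
noncomputable def NeuB_g (m : ℂ → ℂ) : ℕ → ℂ → ℂ
  | 0 => m
  | n + 1 => TT m (NeuB_g m n)

theorem NeuB_wt_one (ξ : ℂ) : 1 ≤ wt ξ := by
  unfold wt
  nlinarith [norm_nonneg ξ]

theorem NeuB_wt_pos (ξ : ℂ) : 0 < wt ξ := lt_of_lt_of_le one_pos (NeuB_wt_one ξ)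

theorem NeuB_wt_cont : Continuous wt := by
  unfold wt
  fun_prop

theorem NeuB_sy_norm (ξ : ℂ) : ‖sy ξ‖ ≤ 1 := by
  unfold sy
  rw [norm_div, Complex.norm_conj]
  exact div_self_le_one _

theorem NeuB_sy_meas : Measurable sy := by
  unfold sy
  exact (Complex.continuous_conj.measurable).div measurable_id

theorem NeuB_ee_norm (ξ z : ℂ) : ‖ee ξ z‖ = 1 := by
  unfold ee
  have h : (2 * Real.pi * I * ((inner ℝ ξ z : ℝ) : ℂ)) =
      ((2 * Real.pi * (inner ℝ ξ z : ℝ) : ℝ) : ℂ) * I := by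
    push_cast
    ring
  rw [h, Complex.norm_exp_ofReal_mul_I]

theorem NeuB_ee_cont (z : ℂ) : Continuous (fun ξ => ee ξ z) := by
  unfold ee
  fun_prop

theorem NeuB_terms {m : ℂ → ℂ} (hm : Continuous m) (hmi : Integrable (fun ξ => wt ξ * ‖m ξ‖))
    (hs : ∫ ξ, wt ξ * ‖m ξ‖ ≤ 1 / 4) (n : ℕ) :
    AEStronglyMeasurable (NeuB_g m n) volume ∧
      Integrable (fun ξ => wt ξ * ‖NeuB_g m n ξ‖) ∧
      ∫ ξ, wt ξ * ‖NeuB_g m n ξ‖ ≤ (1 / 4) ^ (n + 1) := by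
  induction n with
  | zero => exact ⟨hm.aestronglyMeasurable, hmi, by rw [zero_add, pow_one]; exact hs⟩
  | succ n ih =>
    obtain ⟨h1, h2, h3⟩ := ih
    obtain ⟨h4, h5, h6⟩ := TT_weighted hm hmi h1 h2
    refine ⟨h4, h5, h6.trans ?_⟩
    have h7 : (0 : ℝ) ≤ ∫ ξ, wt ξ * ‖NeuB_g m n ξ‖ :=
      integral_nonneg fun ξ => mul_nonneg (NeuB_wt_pos ξ).le (norm_nonneg _)
    calc (∫ ξ, wt ξ * ‖m ξ‖) * ∫ ξ, wt ξ * ‖NeuB_g m n ξ‖
        ≤ (1 / 4) * (1 / 4) ^ (n + 1) := mul_le_mul hs h3 h7 (by norm_num)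
      _ = (1 / 4) ^ (n + 1 + 1) := by ring

theorem NeuB_summable : Summable (fun n : ℕ => ((1 : ℝ) / 4) ^ (n + 1)) := by
  have h := (summable_geometric_of_lt_one (r := (1 : ℝ) / 4) (by norm_num) (by norm_num))
  exact (summable_nat_add_iff 1).2 h

theorem NeuB_tsum : ∑' n : ℕ, ((1 : ℝ) / 4) ^ (n + 1) = 1 / 3 := by
  have h : ∀ n : ℕ, ((1 : ℝ) / 4) ^ (n + 1) = (1 / 4) * (1 / 4) ^ n := fun n => by ring
  simp_rw [h]
  rw [tsum_mul_left, tsum_geometric_of_lt_one (by norm_num) (by norm_num)]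
  norm_num

/-- multiplication of all terms by a bounded function -/
theorem NeuB_hasSum {m : ℂ → ℂ} (hm : Continuous m) (hmi : Integrable (fun ξ => wt ξ * ‖m ξ‖))
    (hs : ∫ ξ, wt ξ * ‖m ξ‖ ≤ 1 / 4) (φ : ℂ → ℂ) (hφ : AEStronglyMeasurable φ volume)
    (hφ1 : ∀ ξ, ‖φ ξ‖ ≤ 1) :
    HasSum (fun n => ∫ ξ, φ ξ * NeuB_g m n ξ) (∫ ξ, φ ξ * ∑' n, NeuB_g m n ξ) := by
  have hle : ∀ n ξ, ‖φ ξ * NeuB_g m n ξ‖ ≤ wt ξ * ‖NeuB_g m n ξ‖ := by
    intro n ξ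
    rw [norm_mul]
    exact mul_le_mul_of_nonneg_right ((hφ1 ξ).trans (NeuB_wt_one ξ)) (norm_nonneg _)
  have hint : ∀ n, Integrable (fun ξ => φ ξ * NeuB_g m n ξ) := by
    intro n
    obtain ⟨h1, h2, h3⟩ := NeuB_terms hm hmi hs n
    exact h2.mono' (hφ.mul h1) (Filter.Eventually.of_forall (hle n))
  have hsum : Summable (fun n => ∫ ξ, ‖φ ξ * NeuB_g m n ξ‖) := by
    refine Summable.of_nonneg_of_le (fun n => integral_nonneg fun ξ => norm_nonneg _)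
      (fun n => ?_) NeuB_summable
    obtain ⟨h1, h2, h3⟩ := NeuB_terms hm hmi hs n
    exact (integral_mono (hint n).norm h2 (hle n)).trans h3
  have h := hasSum_integral_of_summable_integral_norm hint hsum
  simp_rw [tsum_mul_left] at h
  exact h

/-- PROOF.  `γ 0 = m`, `γ (n+1) = TT m (γ n)`.  By `TT_weighted` and induction
`∫ wt ‖γ n‖ ≤ (1/4)^(n+1)`.  Put `γ ξ = ∑' n, γ n ξ`.  `∑ n, ∫ wt ‖γ n‖ ≤ 1/3`, so `γ` is a.e. strongly
measurable, `wt ‖γ‖` is integrable and `∫ ‖γ‖ ≤ ∫ wt ‖γ‖ ≤ 1/3` (`lintegral_tsum` or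
`hasSum_integral_of_summable_integral_norm` for the functions `wt * ‖γ n‖`; `‖γ ξ‖ ≤ ∑' ‖γ n ξ‖`
a.e.).  By `hasSum_integral_of_summable_integral_norm`, `∫ ee ξ z * γ ξ = ∑' n, ∫ ee ξ z * γ n ξ`, the
same with `sy ξ * γ n ξ`, and by `TT_fourier`
`∫ ee ξ z * γ (n+1) ξ = (∫ ee ξ z * m ξ) * ∫ ee ξ z * (sy ξ * γ n ξ)`; sum over `n`. -/
theorem neumann {m : ℂ → ℂ} (hm : Continuous m) (hmi : Integrable (fun ξ => wt ξ * ‖m ξ‖))
    (hs : ∫ ξ, wt ξ * ‖m ξ‖ ≤ 1 / 4) :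
    ∃ γ : ℂ → ℂ, AEStronglyMeasurable γ volume ∧ Integrable (fun ξ => wt ξ * ‖γ ξ‖) ∧
      ∫ ξ, ‖γ ξ‖ ≤ 1 / 3 ∧
      ∀ z, ∫ ξ, ee ξ z * γ ξ = (∫ ξ, ee ξ z * m ξ) * (1 + ∫ ξ, ee ξ z * (sy ξ * γ ξ)) := by
  -- the weighted terms
  set G : ℕ → ℂ → ℂ := fun n ξ => (wt ξ : ℂ) * NeuB_g m n ξ with hG
  have hwC : Continuous (fun ξ : ℂ => (wt ξ : ℂ)) := Complex.continuous_ofReal.comp NeuB_wt_cont
  have hGm : ∀ n, AEStronglyMeasurable (G n) volume := fun n =>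
    hwC.aestronglyMeasurable.mul (NeuB_terms hm hmi hs n).1
  have hGn : ∀ n ξ, ‖G n ξ‖ = wt ξ * ‖NeuB_g m n ξ‖ := by
    intro n ξ
    rw [hG]
    simp only [norm_mul, Complex.norm_real, Real.norm_of_nonneg (NeuB_wt_pos ξ).le]
  have hGi : ∀ n, Integrable (G n) := by
    intro n
    refine (integrable_norm_iff (hGm n)).1 ?_
    simp_rw [hGn]
    exact (NeuB_terms hm hmi hs n).2.1
  have hlint : ∀ n, ∫⁻ ξ, ‖G n ξ‖ₑ ≤ ENNReal.ofReal ((1 / 4) ^ (n + 1)) := by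
    intro n
    rw [← ofReal_integral_norm_eq_lintegral_enorm (hGi n)]
    refine ENNReal.ofReal_le_ofReal ?_
    simp_rw [hGn]
    exact (NeuB_terms hm hmi hs n).2.2
  have hH : ∫⁻ ξ, ∑' n, ‖G n ξ‖ₑ ≤ ENNReal.ofReal (1 / 3) := by
    rw [lintegral_tsum fun n => (hGm n).enorm, ← NeuB_tsum,
      ENNReal.ofReal_tsum_of_nonneg (fun n => by positivity) NeuB_summable]
    exact ENNReal.tsum_le_tsum hlint
  have hHfin : ∫⁻ ξ, ∑' n, ‖G n ξ‖ₑ ≠ ⊤ := (lt_of_le_of_lt hH ENNReal.ofReal_lt_top).ne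
  have hae : ∀ᵐ ξ, ∑' n, ‖G n ξ‖ₑ < ⊤ :=
    ae_lt_top' (AEMeasurable.tsum fun n => (hGm n).enorm) hHfin
  -- summability almost everywhere
  have hsumae : ∀ᵐ ξ, Summable fun n => NeuB_g m n ξ := by
    filter_upwards [hae] with ξ hξ
    have h1 : Summable fun n => ‖G n ξ‖₊ := ENNReal.tsum_coe_ne_top_iff_summable.1 hξ.ne
    have h2 : Summable fun n => ‖G n ξ‖ := by
      have h3 := NNReal.summable_coe.2 h1
      simpa using h3
    refine Summable.of_norm_bounded h2 fun n => ?_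
    rw [hGn]
    have h3 := mul_le_mul_of_nonneg_right (NeuB_wt_one ξ) (norm_nonneg (NeuB_g m n ξ))
    rwa [one_mul] at h3
  have hbound : ∀ ξ, ‖(wt ξ : ℂ) * ∑' n, NeuB_g m n ξ‖ₑ ≤ ∑' n, ‖G n ξ‖ₑ := by
    intro ξ
    rw [← tsum_mul_left]
    exact enorm_tsum_le_tsum_enorm
  have hγm : AEStronglyMeasurable (fun ξ => ∑' n, NeuB_g m n ξ) volume := by
    refine aestronglyMeasurable_of_tendsto_ae (u := Filter.atTop)
      (f := fun (N : ℕ) ξ => ∑ n ∈ Finset.range N, NeuB_g m n ξ) (fun N => ?_) ?_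
    · have h1 := Finset.aestronglyMeasurable_sum (Finset.range N)
        (fun n _ => (NeuB_terms hm hmi hs n).1)
      exact h1.congr (Filter.Eventually.of_forall fun ξ => by simp)
    · filter_upwards [hsumae] with ξ hξ
      exact hξ.hasSum.tendsto_sum_nat
  have hwγ : Integrable (fun ξ => (wt ξ : ℂ) * ∑' n, NeuB_g m n ξ) := by
    refine ⟨hwC.aestronglyMeasurable.mul hγm, ?_⟩
    exact lt_of_le_of_lt (lintegral_mono hbound) (lt_of_le_of_ne le_top hHfin)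
  have hwγn : Integrable (fun ξ => wt ξ * ‖∑' n, NeuB_g m n ξ‖) := by
    have h1 := hwγ.norm
    simp only [norm_mul, Complex.norm_real] at h1
    refine h1.congr (Filter.Eventually.of_forall fun ξ => ?_)
    simp only [Real.norm_of_nonneg (NeuB_wt_pos ξ).le]
  refine ⟨fun ξ => ∑' n, NeuB_g m n ξ, hγm, hwγn, ?_, ?_⟩
  · rw [integral_norm_eq_lintegral_enorm hγm]
    have h1 : ∫⁻ ξ, ‖∑' n, NeuB_g m n ξ‖ₑ ≤ ENNReal.ofReal (1 / 3) := by
      refine (lintegral_mono fun ξ => ?_).trans hH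
      refine le_trans ?_ (hbound ξ)
      rw [enorm_le_iff_norm_le, norm_mul, Complex.norm_real,
        Real.norm_of_nonneg (NeuB_wt_pos ξ).le]
      have h3 := mul_le_mul_of_nonneg_right (NeuB_wt_one ξ) (norm_nonneg (∑' n, NeuB_g m n ξ))
      rwa [one_mul] at h3
    refine (ENNReal.toReal_mono ENNReal.ofReal_ne_top h1).trans ?_
    rw [ENNReal.toReal_ofReal (by norm_num)]
  · intro z
    have hA := NeuB_hasSum hm hmi hs (fun ξ => ee ξ z) (NeuB_ee_cont z).aestronglyMeasurable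
      (fun ξ => (NeuB_ee_norm ξ z).le)
    have hS := NeuB_hasSum hm hmi hs (fun ξ => ee ξ z * sy ξ)
      ((NeuB_ee_cont z).aestronglyMeasurable.mul NeuB_sy_meas.aestronglyMeasurable)
      (fun ξ => by
        rw [norm_mul, NeuB_ee_norm, one_mul]
        exact NeuB_sy_norm ξ)
    simp_rw [mul_assoc] at hS
    have hrec : ∀ n, ∫ ξ, ee ξ z * NeuB_g m (n + 1) ξ =
        (∫ ξ, ee ξ z * m ξ) * ∫ ξ, ee ξ z * (sy ξ * NeuB_g m n ξ) := by
      intro n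
      obtain ⟨h1, h2, h3⟩ := NeuB_terms hm hmi hs n
      exact TT_fourier hm hmi h1 h2 z
    have h1 := hS.mul_left (∫ ξ, ee ξ z * m ξ)
    simp_rw [← hrec] at h1
    have h2 := (hasSum_nat_add_iff (f := fun n => ∫ ξ, ee ξ z * NeuB_g m n ξ) 1).1 h1
    have h3 := hA.unique h2
    rw [h3, Finset.sum_range_one, mul_add, mul_one, add_comm]
    rfl

end FC9
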