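import Pool.Agent.W_fc1c69_h9.Fou
import Pool.Agent.W_fc1c69_h34.Defs

/-!
# MP_fc1c69_an, Layer 5, stub `Rep`: the primitive of `∂̄ w = ∫ γ e_ξ`, `∂ w = 1 + ∫ s γ e_ξ`
-/

open Complex MeasureTheory Metric
open scoped ContDiff ComplexConjugate

namespace FC9

lemma Rep_ee_norm (ξ z : ℂ) : ‖ee ξ z‖ = 1 := by
  unfold ee
  have h : (2 * Real.pi * I * ((inner ℝ ξ z : ℝ) : ℂ)) =
      ((2 * Real.pi * (inner ℝ ξ z : ℝ) : ℝ) : ℂ) * I := by
    push_cast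
    ring
  rw [h, Complex.norm_exp_ofReal_mul_I]

lemma Rep_ee_sub (ξ z : ℂ) : ‖ee ξ z - 1‖ ≤ 2 * Real.pi * (‖ξ‖ * ‖z‖) := by
  unfold ee
  have h : (2 * Real.pi * I * ((inner ℝ ξ z : ℝ) : ℂ)) =
      I * ((2 * Real.pi * (inner ℝ ξ z : ℝ) : ℝ) : ℂ) := by
    push_cast
    ring
  rw [h]
  refine Real.norm_exp_I_mul_ofReal_sub_one_le.trans ?_
  rw [Real.norm_eq_abs, abs_mul, abs_of_pos (by positivity : (0 : ℝ) < 2 * Real.pi)]
  exact mul_le_mul_of_nonneg_left (abs_real_inner_le_norm ξ z) (by positivity)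

lemma Rep_ee_cont (z : ℂ) : Continuous fun ξ => ee ξ z := by
  unfold ee
  fun_prop

lemma Rep_sy_norm (ξ : ℂ) : ‖sy ξ‖ ≤ 1 := by
  unfold sy
  rw [norm_div, Complex.norm_conj]
  exact div_self_le_one _

lemma Rep_sy_meas : Measurable sy := by
  unfold sy
  exact (Complex.continuous_conj.measurable).div measurable_id

lemma Rep_mom {g : ℂ → ℂ} (hg : AEStronglyMeasurable g volume)
    (hi : Integrable (fun ξ => wt ξ * ‖g ξ‖)) (n : ℕ) (hn : n ≤ 2) :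
    Integrable (fun ξ : ℂ => ‖ξ‖ ^ n * ‖g ξ‖) := by
  refine hi.mono' ((continuous_norm.pow n).aestronglyMeasurable.mul hg.norm) ?_
  refine Filter.Eventually.of_forall fun ξ => ?_
  have h1 : ‖ξ‖ ^ n ≤ wt ξ := by
    unfold wt
    have h0 : 0 ≤ ‖ξ‖ := norm_nonneg ξ
    calc ‖ξ‖ ^ n ≤ (1 + ‖ξ‖) ^ n := pow_le_pow_left₀ h0 (by linarith) n
      _ ≤ (1 + ‖ξ‖) ^ 2 := pow_le_pow_right₀ (by linarith) hn
  rw [Real.norm_eq_abs, abs_of_nonneg (by positivity)]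
  exact mul_le_mul_of_nonneg_right h1 (norm_nonneg _)

lemma Rep_int {g : ℂ → ℂ} (hg : AEStronglyMeasurable g volume)
    (hi : Integrable (fun ξ => wt ξ * ‖g ξ‖)) : Integrable g := by
  have h := Rep_mom hg hi 0 (by norm_num)
  simp only [pow_zero, one_mul] at h
  exact (integrable_norm_iff hg).1 h

lemma Rep_smooth {g : ℂ → ℂ} (hg : AEStronglyMeasurable g volume)
    (hi : Integrable (fun ξ => wt ξ * ‖g ξ‖)) : ContDiff ℝ 2 fun z => ∫ ξ, ee ξ z * g ξ := by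
  have h1 : ContDiff ℝ ((2 : ℕ∞) : WithTop ℕ∞) (FourierTransform.fourier g) :=
    Real.contDiff_fourier fun n hn => Rep_mom hg hi n (by exact_mod_cast hn)
  have h2 : (fun z => ∫ ξ, ee ξ z * g ξ) = fun z => (FourierTransform.fourier g) (-z) := by
    funext z
    rw [Real.fourier_eq']
    refine integral_congr_ae (Filter.Eventually.of_forall fun ξ => ?_)
    simp only [smul_eq_mul]
    congr 1
    unfold ee
    congr 1
    rw [inner_neg_right]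
    push_cast
    ring
  rw [h2]
  exact h1.comp contDiff_neg

/-- the derivative of the integrand -/
noncomputable def Rep_K (γ : ℂ → ℂ) (z ξ : ℂ) : ℂ →L[ℝ] ℂ :=
  (ee ξ z * (sy ξ * γ ξ)) • ContinuousLinearMap.id ℝ ℂ +
    (ee ξ z * γ ξ) • (Complex.conjCLE : ℂ →L[ℝ] ℂ)

lemma Rep_K_norm (γ : ℂ → ℂ) (z ξ : ℂ) : ‖Rep_K γ z ξ‖ ≤ 2 * ‖γ ξ‖ := by
  unfold Rep_K
  refine (norm_add_le _ _).trans ?_
  rw [norm_smul, norm_smul, norm_mul, norm_mul, norm_mul, Rep_ee_norm, one_mul, one_mul]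
  have h1 : ‖ContinuousLinearMap.id ℝ ℂ‖ ≤ 1 := ContinuousLinearMap.norm_id_le
  have h2 : ‖(Complex.conjCLE : ℂ →L[ℝ] ℂ)‖ ≤ 1 := Complex.conjCLE_norm.le
  have h3 := Rep_sy_norm ξ
  have h4 := norm_nonneg (γ ξ)
  have h5 := norm_nonneg (sy ξ)
  have h6 : ‖sy ξ‖ * ‖γ ξ‖ ≤ ‖γ ξ‖ := by nlinarith
  have h7 : ‖sy ξ‖ * ‖γ ξ‖ * ‖ContinuousLinearMap.id ℝ ℂ‖ ≤ ‖γ ξ‖ * 1 :=
    mul_le_mul h6 h1 (norm_nonneg _) h4
  have h8 : ‖γ ξ‖ * ‖(Complex.conjCLE : ℂ →L[ℝ] ℂ)‖ ≤ ‖γ ξ‖ * 1 :=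
    mul_le_mul_of_nonneg_left h2 h4
  linarith

lemma Rep_deriv (γ : ℂ → ℂ) {ξ : ℂ} (hξ : ξ ≠ 0) (z : ℂ) :
    HasFDerivAt (fun z => γ ξ * ((ee ξ z - 1) / (Real.pi * I * ξ))) (Rep_K γ z ξ) z := by
  have hπ : (Real.pi : ℂ) ≠ 0 := by exact_mod_cast Real.pi_ne_zero
  have h1 : HasFDerivAt (fun z : ℂ => ((inner ℝ ξ z : ℝ) : ℂ))
      (Complex.ofRealCLM.comp (innerSL ℝ ξ)) z :=
    (Complex.ofRealCLM.comp (innerSL ℝ ξ)).hasFDerivAt
  have h2 := (h1.const_mul (2 * Real.pi * I)).cexp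
  have h3 := ((h2.sub_const 1).mul_const (Real.pi * I * ξ)⁻¹).const_mul (γ ξ)
  have h4 : (fun z => γ ξ * ((ee ξ z - 1) / (Real.pi * I * ξ))) =
      fun z => γ ξ * ((Complex.exp (2 * Real.pi * I * ((inner ℝ ξ z : ℝ) : ℂ)) - 1) *
        (Real.pi * I * ξ)⁻¹) := by
    funext z
    rw [div_eq_mul_inv]
    rfl
  rw [h4]
  refine h3.congr_fderiv ?_
  ext v
  have h5 : ((2 * (inner ℝ ξ v : ℝ) : ℝ) : ℂ) = ξ * conj v + conj ξ * v := by
    apply Complex.ext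
    · simp [Complex.inner]
      ring
    · simp [Complex.inner]
      ring
  have h6 : (((inner ℝ ξ v : ℝ)) : ℂ) = (ξ * conj v + conj ξ * v) / 2 := by
    rw [← h5]
    push_cast
    ring
  have h7 : Complex.exp (2 * Real.pi * I * ((inner ℝ ξ z : ℝ) : ℂ)) = ee ξ z := rfl
  simp only [Rep_K, sy, add_apply, smul_apply,
    ContinuousLinearMap.comp_apply, smul_eq_mul, ContinuousLinearMap.id_apply, h7]
  have h8 : ofRealCLM ((innerSL ℝ ξ) v) = (ξ * conj v + conj ξ * v) / 2 := h6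
  have h9 : (Complex.conjCLE : ℂ →L[ℝ] ℂ) v = conj v := rfl
  rw [h8, h9]
  field_simp
  ring

/-- PROOF.  `w z = z + ∫ ξ, γ ξ * ((ee ξ z - 1) / (π I ξ))` (value `0` of the quotient at `ξ = 0`).
`z ↦ ee ξ z` has real derivative `2 π I ⟨ξ, ·⟩ ee ξ z`, so the derivative of `(ee ξ z - 1)/(π I ξ)` in
the direction `v` is `2 ⟨ξ, v⟩ / ξ * ee ξ z`, of norm `≤ 2 ‖v‖`; `|ee ξ z - 1| ≤ 2 π |ξ| |z|`.
Differentiate under the integral (`hasFDerivAt_integral_of_dominated_of_fderiv_le`, bound `2 ‖γ‖`):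
`fderiv ℝ w z v = v + ∫ ξ, γ ξ * (2 ⟨ξ, v⟩ / ξ) * ee ξ z`.  With `v = 1` and `v = I`:
`2⟨ξ,1⟩/ξ = (ξ + ξ̄)/ξ = 1 + sy ξ`, `2⟨ξ,I⟩/ξ = -I (ξ - ξ̄)/ξ = -I (1 - sy ξ)` for `ξ ≠ 0` (a.e.), hence
`dbar w z = ∫ ee ξ z * γ ξ` and `dz w z = 1 + ∫ ee ξ z * (sy ξ * γ ξ)`.
Both right sides are `C²` in `z` (moments of order `≤ 2`: `contDiff_fourierIntegral`, i.e. the inverse
Fourier transforms of `γ` and `sy γ`, see `Mathlib/Analysis/Fourier/FourierTransformDeriv.lean`), and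
`fderiv ℝ w z = (dz w z) • id + (dbar w z) • conj` as real linear maps, so `w` is `C³`
(`contDiff_succ_iff_fderiv`). -/
theorem exists_w {γ : ℂ → ℂ} (hγ : AEStronglyMeasurable γ volume)
    (hi : Integrable (fun ξ => wt ξ * ‖γ ξ‖)) :
    ∃ w : ℂ → ℂ, ContDiff ℝ 3 w ∧ w 0 = 0 ∧ (∀ z, FC34.dbar w z = ∫ ξ, ee ξ z * γ ξ) ∧
      ∀ z, FC34.dz w z = 1 + ∫ ξ, ee ξ z * (sy ξ * γ ξ) := by
  have hγ1 : Integrable γ := Rep_int hγ hi
  have hs : AEStronglyMeasurable (fun ξ => sy ξ * γ ξ) volume :=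
    Rep_sy_meas.aestronglyMeasurable.mul hγ
  have hsi : Integrable (fun ξ => wt ξ * ‖sy ξ * γ ξ‖) := by
    refine hi.mono' ?_ (Filter.Eventually.of_forall fun ξ => ?_)
    · refine Continuous.aestronglyMeasurable ?_ |>.mul hs.norm
      unfold wt
      fun_prop
    · have h1 : 0 ≤ wt ξ := by
        unfold wt
        positivity
      rw [norm_mul, Real.norm_eq_abs, Real.norm_eq_abs, abs_of_nonneg h1, abs_norm, norm_mul]
      refine mul_le_mul_of_nonneg_left ?_ h1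
      have h2 := Rep_sy_norm ξ
      have h3 := norm_nonneg (γ ξ)
      nlinarith [norm_nonneg (sy ξ)]
  have hs1 : Integrable (fun ξ => sy ξ * γ ξ) := Rep_int hs hsi
  set F0 : ℂ → ℂ := fun z => ∫ ξ, ee ξ z * γ ξ with hF0
  set F1 : ℂ → ℂ := fun z => ∫ ξ, ee ξ z * (sy ξ * γ ξ) with hF1
  have hc0 : ContDiff ℝ 2 F0 := Rep_smooth hγ hi
  have hc1 : ContDiff ℝ 2 F1 := Rep_smooth hs hsi
  have he : ∀ (g : ℂ → ℂ) (z : ℂ), Integrable g → Integrable fun ξ => ee ξ z * g ξ := by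
    intro g z hg
    refine hg.norm.mono' ((Rep_ee_cont z).aestronglyMeasurable.mul hg.aestronglyMeasurable) ?_
    refine Filter.Eventually.of_forall fun ξ => ?_
    rw [norm_mul, Rep_ee_norm, one_mul]
  -- the derivative
  have hKi : ∀ z, ∫ ξ, Rep_K γ z ξ = F1 z • ContinuousLinearMap.id ℝ ℂ +
      F0 z • (Complex.conjCLE : ℂ →L[ℝ] ℂ) := by
    intro z
    have h1 : Integrable fun ξ => (ee ξ z * (sy ξ * γ ξ)) • ContinuousLinearMap.id ℝ ℂ :=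
      (he _ z hs1).smul_const _
    have h2 : Integrable fun ξ => (ee ξ z * γ ξ) • (Complex.conjCLE : ℂ →L[ℝ] ℂ) :=
      (he _ z hγ1).smul_const _
    unfold Rep_K
    rw [integral_add h1 h2, integral_smul_const, integral_smul_const]
  have hmeas : ∀ z, AEStronglyMeasurable (fun ξ => γ ξ * ((ee ξ z - 1) / (Real.pi * I * ξ)))
      volume := by
    intro z
    refine hγ.mul ?_
    exact (((Rep_ee_cont z).measurable.sub_const 1).div
      (measurable_const.mul measurable_id)).aestronglyMeasurable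
  have hd : ∀ z, HasFDerivAt (fun z => ∫ ξ, γ ξ * ((ee ξ z - 1) / (Real.pi * I * ξ)))
      (∫ ξ, Rep_K γ z ξ) z := by
    intro z
    refine hasFDerivAt_integral_of_dominated_of_fderiv_le (s := Set.univ)
      (bound := fun ξ => 2 * ‖γ ξ‖) Filter.univ_mem
      (Filter.Eventually.of_forall fun z => hmeas z) ?_ ?_ ?_ (hγ1.norm.const_mul 2) ?_
    · refine (hγ1.norm.const_mul (2 * ‖z‖)).mono' (hmeas z) ?_
      refine Filter.Eventually.of_forall fun ξ => ?_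
      rw [norm_mul, norm_div, norm_mul, norm_mul, Complex.norm_I, mul_one, Complex.norm_real,
        Real.norm_eq_abs, abs_of_pos Real.pi_pos]
      by_cases hξ : ξ = 0
      · rw [hξ, norm_zero, mul_zero, div_zero, mul_zero]
        positivity
      · have h1 := Rep_ee_sub ξ z
        have h2 : 0 < ‖ξ‖ := norm_pos_iff.2 hξ
        have h3 : ‖ee ξ z - 1‖ / (Real.pi * ‖ξ‖) ≤ 2 * ‖z‖ := by
          rw [div_le_iff₀ (by positivity)]
          calc ‖ee ξ z - 1‖ ≤ 2 * Real.pi * (‖ξ‖ * ‖z‖) := h1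
            _ = 2 * ‖z‖ * (Real.pi * ‖ξ‖) := by ring
        calc ‖γ ξ‖ * (‖ee ξ z - 1‖ / (Real.pi * ‖ξ‖)) ≤ ‖γ ξ‖ * (2 * ‖z‖) :=
              mul_le_mul_of_nonneg_left h3 (norm_nonneg _)
          _ = 2 * ‖z‖ * ‖γ ξ‖ := by ring
    · unfold Rep_K
      exact ((he _ z hs1).smul_const _).aestronglyMeasurable.add
        ((he _ z hγ1).smul_const _).aestronglyMeasurable
    · exact Filter.Eventually.of_forall fun ξ x _ => Rep_K_norm γ x ξ
    · have h0 : ∀ᵐ ξ : ℂ, ξ ≠ 0 := by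
        have : (volume : Measure ℂ) {0} = 0 := measure_singleton 0
        exact measure_eq_zero_iff_ae_notMem.1 this
      filter_upwards [h0] with ξ hξ x _
      exact Rep_deriv γ hξ x
  have hw : ∀ z, HasFDerivAt (fun z => z + ∫ ξ, γ ξ * ((ee ξ z - 1) / (Real.pi * I * ξ)))
      (ContinuousLinearMap.id ℝ ℂ + (F1 z • ContinuousLinearMap.id ℝ ℂ +
        F0 z • (Complex.conjCLE : ℂ →L[ℝ] ℂ))) z := by
    intro z
    rw [← hKi]
    exact (hasFDerivAt_id z).add (hd z)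
  refine ⟨fun z => z + ∫ ξ, γ ξ * ((ee ξ z - 1) / (Real.pi * I * ξ)), ?_, ?_, ?_, ?_⟩
  · have h3 : (3 : WithTop ℕ∞) = 2 + 1 := by norm_num
    rw [h3, contDiff_succ_iff_fderiv]
    refine ⟨fun z => (hw z).differentiableAt, by simp, ?_⟩
    have h4 : fderiv ℝ (fun z => z + ∫ ξ, γ ξ * ((ee ξ z - 1) / (Real.pi * I * ξ))) =
        fun z => ContinuousLinearMap.id ℝ ℂ + (F1 z • ContinuousLinearMap.id ℝ ℂ +
          F0 z • (Complex.conjCLE : ℂ →L[ℝ] ℂ)) := funext fun z => (hw z).fderiv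
    rw [h4]
    exact contDiff_const.add ((hc1.smul contDiff_const).add (hc0.smul contDiff_const))
  · simp [ee]
  · intro z
    unfold FC34.dbar FC34.px FC34.py
    rw [(hw z).fderiv]
    simp only [add_apply, smul_apply, ContinuousLinearMap.id_apply, smul_eq_mul]
    have h1 : (Complex.conjCLE : ℂ →L[ℝ] ℂ) 1 = 1 := by simp
    have h2 : (Complex.conjCLE : ℂ →L[ℝ] ℂ) I = -I := by simp
    rw [h1, h2]
    show _ = F0 z
    linear_combination ((1 + F1 z - F0 z) / 2) * Complex.I_mul_I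
  · intro z
    unfold FC34.dz FC34.px FC34.py
    rw [(hw z).fderiv]
    simp only [add_apply, smul_apply, ContinuousLinearMap.id_apply, smul_eq_mul]
    have h1 : (Complex.conjCLE : ℂ →L[ℝ] ℂ) 1 = 1 := by simp
    have h2 : (Complex.conjCLE : ℂ →L[ℝ] ℂ) I = -I := by simp
    rw [h1, h2]
    show _ = 1 + F1 z
    linear_combination (-(1 + F1 z - F0 z) / 2) * Complex.I_mul_I

end FC9
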