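import Pool.Agent.W_fc1c69_h9.Small
import Pool.Agent.W_fc1c69_h9.NeuB
import Pool.Agent.W_fc1c69_h9.Rep

/-!
# MP_fc1c69_an, Layer 5, stub `BelZ`: the Beltrami equation near a zero of the coefficient
-/

open Complex MeasureTheory Metric
open scoped ContDiff

namespace FC9

private theorem BelZ_norm_ee (ξ z : ℂ) : ‖ee ξ z‖ = 1 := by
  have h : (2 * Real.pi * I * ((inner ℝ ξ z : ℝ) : ℂ)) =
      (((2 * Real.pi * inner ℝ ξ z : ℝ)) : ℂ) * I := by
    push_cast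
    ring
  rw [ee, h, Complex.norm_exp_ofReal_mul_I]

private theorem BelZ_norm_sy (ξ : ℂ) : ‖sy ξ‖ ≤ 1 := by
  rw [sy, norm_div, RCLike.norm_conj]
  exact div_self_le_one _

private theorem BelZ_scale {W : ℂ → ℂ} (hW : ContDiff ℝ 3 W) (a : ℝ) (z : ℂ) :
    FC34.dbar (fun z => W (a • z)) z = a * FC34.dbar W (a • z) ∧
      FC34.dz (fun z => W (a • z)) z = a * FC34.dz W (a • z) := by
  have h1 : HasFDerivAt (fun z : ℂ => a • z) (a • ContinuousLinearMap.id ℝ ℂ) z :=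
    (hasFDerivAt_id z).const_smul a
  have h2 : HasFDerivAt W (fderiv ℝ W (a • z)) (a • z) :=
    ((hW.differentiable (by norm_num)) _).hasFDerivAt
  have h3 : fderiv ℝ (fun z => W (a • z)) z =
      (fderiv ℝ W (a • z)).comp (a • ContinuousLinearMap.id ℝ ℂ) :=
    (h2.comp z h1).fderiv
  have h4 : ∀ v : ℂ, fderiv ℝ (fun z => W (a • z)) z v = a * fderiv ℝ W (a • z) v := by
    intro v
    rw [h3, ContinuousLinearMap.comp_apply, ContinuousLinearMap.smul_apply,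
      ContinuousLinearMap.id_apply, map_smul, Complex.real_smul]
  constructor
  · simp only [FC34.dbar, FC34.px, FC34.py, h4]
    ring
  · simp only [FC34.dz, FC34.px, FC34.py, h4]
    ring

/-- PROOF.  `small_fourier` with `δ = 1/4` gives `ε, m`; `neumann` gives `γ`; `exists_w` gives `W` with
`dbar W z = μ (ε z) * dz W z` for `z ∈ ball 0 1` and `‖dz W z - 1‖ ≤ ∫ ‖γ‖ ≤ 1/3`, so `dz W z ≠ 0`.
Put `w z = W (z / ε)`, `r = ε`: `dbar w z = dbar W (z/ε) / ε`, `dz w z = dz W (z/ε) / ε` (chain rule with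
the real scalar `1/ε`). -/
theorem beltrami_zero {μ : ℂ → ℂ} (hμ : ContDiff ℝ ∞ μ) (hμc : HasCompactSupport μ) (h0 : μ 0 = 0) :
    ∃ r > 0, ∃ w : ℂ → ℂ, ContDiff ℝ 3 w ∧ w 0 = 0 ∧
      ∀ z ∈ ball (0 : ℂ) r, FC34.dbar w z = μ z * FC34.dz w z ∧ FC34.dz w z ≠ 0 := by
  obtain ⟨ε, hε, m, hmc, hmi, hms, hmF⟩ := small_fourier hμ hμc h0 (δ := 1 / 4) (by norm_num)
  obtain ⟨γ, hγm, hγi, hγ1, hγF⟩ := neumann hmc hmi hms
  obtain ⟨W, hW, hW0, hWb, hWd⟩ := exists_w hγm hγi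
  refine ⟨ε, hε, fun z => W (ε⁻¹ • z), ?_, ?_, ?_⟩
  · exact hW.comp (contDiff_id.const_smul ε⁻¹)
  · show W (ε⁻¹ • 0) = 0
    rw [smul_zero, hW0]
  · intro z hz
    have hζ : ε⁻¹ • z ∈ ball (0 : ℂ) 1 := by
      rw [mem_ball_zero_iff] at hz ⊢
      rw [norm_smul, norm_inv, Real.norm_of_nonneg hε.le, inv_mul_lt_iff₀ hε, mul_one]
      exact hz
    have hεζ : (ε : ℂ) * (ε⁻¹ • z) = z := by
      rw [← Complex.real_smul, smul_smul, mul_inv_cancel₀ hε.ne', one_smul]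
    obtain ⟨h1, h2⟩ := BelZ_scale hW ε⁻¹ z
    have hγint : Integrable (fun ξ => ‖γ ξ‖) := by
      refine hγi.mono hγm.norm (Filter.Eventually.of_forall fun ξ => ?_)
      have hwt : 1 ≤ wt ξ := by
        unfold wt
        nlinarith [norm_nonneg ξ]
      rw [norm_norm, Real.norm_of_nonneg (mul_nonneg (by linarith) (norm_nonneg _))]
      nlinarith [norm_nonneg (γ ξ)]
    have hsmall : ‖∫ ξ, ee ξ (ε⁻¹ • z) * (sy ξ * γ ξ)‖ ≤ 1 / 3 := by
      refine (norm_integral_le_of_norm_le hγint (Filter.Eventually.of_forall fun ξ => ?_)).trans hγ1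
      rw [norm_mul, norm_mul, BelZ_norm_ee, one_mul]
      calc ‖sy ξ‖ * ‖γ ξ‖ ≤ 1 * ‖γ ξ‖ := by
            gcongr
            exact BelZ_norm_sy ξ
        _ = ‖γ ξ‖ := one_mul _
    have hne : FC34.dz W (ε⁻¹ • z) ≠ 0 := by
      rw [hWd]
      intro h3
      have h4 : ∫ ξ, ee ξ (ε⁻¹ • z) * (sy ξ * γ ξ) = -1 := by
        linear_combination h3
      rw [h4, norm_neg, norm_one] at hsmall
      norm_num at hsmall
    have heq : FC34.dbar W (ε⁻¹ • z) = μ z * FC34.dz W (ε⁻¹ • z) := by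
      rw [hWb, hγF, hmF _ hζ, hεζ, hWd]
    refine ⟨?_, ?_⟩
    · rw [h1, h2, heq]
      ring
    · rw [h2]
      refine mul_ne_zero ?_ hne
      exact Complex.ofReal_ne_zero.2 (inv_ne_zero hε.ne')

end FC9
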