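import Pool.Agent.W_fc1c69_h34.Defs

/-!
# MP_fc1c69_an, Layer 5: surfaces, Laplace-Beltrami operator, eigenfunctions (helper9)

`E2` is the model plane.  The Riemannian metric is the one of Mathlib (`RiemannianBundle`,
`IsContMDiffRiemannianBundle`, `IsRiemannianManifold`).
-/

open scoped Manifold ContDiff
open Bundle

namespace FC9

/-- The Euclidean plane. -/
abbrev E2 : Type := EuclideanSpace ℝ (Fin 2)

/-- The `i`-th vector of the standard basis. -/
noncomputable def bv (i : Fin 2) : E2 := EuclideanSpace.single i 1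

/-- Partial derivative in the `i`-th direction. -/
noncomputable def pd {F : Type*} [NormedAddCommGroup F] [NormedSpace ℝ F] (i : Fin 2) (f : E2 → F)
    (x : E2) : F := fderiv ℝ f x (bv i)

/-- The Laplace-Beltrami operator of the metric with coefficients `g` in the plane:
`(1/√det g) ∑_i ∂_i (√det g ∑_j g^{ij} ∂_j u)`. -/
noncomputable def lb (g : E2 → Matrix (Fin 2) (Fin 2) ℝ) (u : E2 → ℝ) (x : E2) : ℝ :=
  (1 / √(g x).det) * ∑ i, pd i (fun y => √(g y).det * ∑ j, (g y)⁻¹ i j * pd j u y) x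

section surface

variable (M : Type) [MetricSpace M] [ChartedSpace E2 M] [IsManifold 𝓘(ℝ, E2) ∞ M]
  [RiemannianBundle (fun x : M => TangentSpace 𝓘(ℝ, E2) x)]

/-- The coefficients of the Riemannian metric in the chart at `p`. -/
noncomputable def gram (p : M) (y : E2) : Matrix (Fin 2) (Fin 2) ℝ :=
  Matrix.of fun i j => inner ℝ
    (mfderiv 𝓘(ℝ, E2) 𝓘(ℝ, E2) (extChartAt 𝓘(ℝ, E2) p).symm y (bv i))
    (mfderiv 𝓘(ℝ, E2) 𝓘(ℝ, E2) (extChartAt 𝓘(ℝ, E2) p).symm y (bv j))

/-- `φ` is a smooth function with `Δ_g φ + lam φ = 0`: the equation holds in all charts of the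
atlas. -/
structure IsEigenfunction (lam : ℝ) (φ : M → ℝ) : Prop where
  smooth : ContMDiff 𝓘(ℝ, E2) 𝓘(ℝ, ℝ) ∞ φ
  eq : ∀ p : M, ∀ y ∈ (extChartAt 𝓘(ℝ, E2) p).target,
    lb (gram M p) (fun x => φ ((extChartAt 𝓘(ℝ, E2) p).symm x)) y =
      - lam * φ ((extChartAt 𝓘(ℝ, E2) p).symm y)

end surface

end FC9
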