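import Mathlib

/-!
# MP_fc1c69_an, Layer 5: notation on the frequency side (helper9)
-/

open Complex MeasureTheory
open scoped ComplexConjugate

namespace FC9

/-- The exponential `z ↦ e^{2 π i ⟨ξ, z⟩}` of the plane `ℂ = ℝ²`. -/
noncomputable def ee (ξ z : ℂ) : ℂ := Complex.exp (2 * Real.pi * I * ((inner ℝ ξ z : ℝ) : ℂ))

/-- The symbol `ξ̄ / ξ` of the Beurling transform. -/
noncomputable def sy (ξ : ℂ) : ℂ := conj ξ / ξ

/-- The (submultiplicative) weight `(1 + |ξ|)²`. -/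
noncomputable def wt (ξ : ℂ) : ℝ := (1 + ‖ξ‖) ^ 2

end FC9
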