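import Pool.Agent.W_fc1c69_h9.Defs
import Pool.Agent.W_fc1c69_h9.Bel

/-!
# MP_fc1c69_an, Layer 5, stub `Iso`: isothermal coordinates of a smooth metric in the plane
-/

open Complex MeasureTheory Metric
open scoped ContDiff ComplexConjugate

namespace FC9

/-- The linear isometry `E2 → ℂ`. -/
noncomputable def Iso_L : E2 →L[ℝ] ℂ :=
  (EuclideanSpace.proj (0 : Fin 2) : E2 →L[ℝ] ℝ).smulRight (1 : ℂ) +
    (EuclideanSpace.proj (1 : Fin 2) : E2 →L[ℝ] ℝ).smulRight I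

theorem Iso_L_apply (x : E2) : Iso_L x = ((x 0 : ℝ) : ℂ) + ((x 1 : ℝ) : ℂ) * I := by
  simp [Iso_L]

/-- The inverse of `x ↦ Iso_L (x - x₀)`. -/
noncomputable def Iso_m (x₀ : E2) (z : ℂ) : E2 := x₀ + z.re • bv 0 + z.im • bv 1

theorem Iso_m_L (x₀ x : E2) : Iso_m x₀ (Iso_L (x - x₀)) = x := by
  rw [Iso_L_apply, Iso_m]
  ext i
  fin_cases i <;> simp [bv]

theorem Iso_m_zero (x₀ : E2) : Iso_m x₀ 0 = x₀ := by
  simp [Iso_m]

theorem Iso_m_contDiff (x₀ : E2) : ContDiff ℝ ∞ (Iso_m x₀) := by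
  unfold Iso_m
  have h1 : ContDiff ℝ ∞ (fun z : ℂ => z.re) := Complex.reCLM.contDiff
  have h2 : ContDiff ℝ ∞ (fun z : ℂ => z.im) := Complex.imCLM.contDiff
  exact (contDiff_const.add (h1.smul contDiff_const)).add (h2.smul contDiff_const)

theorem Iso_norm_lt {τ : ℂ} (hτ : 0 < τ.im) : ‖(I - τ) / (I + τ)‖ < 1 := by
  have h0 : I + τ ≠ 0 := by
    intro h
    have := congrArg Complex.im h
    simp at this
    linarith
  rw [norm_div, div_lt_one (norm_pos_iff.2 h0), ← sq_lt_sq₀ (norm_nonneg _) (norm_nonneg _),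
    ← Complex.normSq_eq_norm_sq, ← Complex.normSq_eq_norm_sq, Complex.normSq_apply,
    Complex.normSq_apply]
  simp
  nlinarith

/-- PROOF.  Put `τ x = (g x 0 1 + I √det) / g x 0 0`, `Im τ > 0`, and `μ = (I - τ) / (I + τ)` transported
to `ℂ` by the affine isometry `ℓ x = (x 0 - x₀ 0) + I (x 1 - x₀ 1)`; `|μ| < 1` because `Im τ > 0`.
`beltrami` gives `w`; `W = w ∘ ℓ`.  Then `pd 0 W x = px w (ℓ x) = dz w + dbar w`,
`pd 1 W x = py w (ℓ x) = I (dz w - dbar w)`, so `pd 0 W x = (1 + μ) dz w ≠ 0` and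
`pd 1 W x = τ * pd 0 W x`, since `I (1 - μ) = τ (1 + μ)`. -/
theorem exists_isothermal {Ω : Set E2} (hΩ : IsOpen Ω) {g : E2 → Matrix (Fin 2) (Fin 2) ℝ}
    (hg : ∀ i j, ContDiffOn ℝ ∞ (fun x => g x i j) Ω) (h0 : ∀ x ∈ Ω, 0 < g x 0 0)
    (hs : ∀ x ∈ Ω, g x 1 0 = g x 0 1) (hdet : ∀ x ∈ Ω, 0 < (g x).det) {x₀ : E2} (hx : x₀ ∈ Ω) :
    ∃ (W : E2 → ℂ) (V : Set E2), IsOpen V ∧ x₀ ∈ V ∧ V ⊆ Ω ∧ ContDiff ℝ 3 W ∧ W x₀ = 0 ∧
      ∀ x ∈ V, pd 0 W x ≠ 0 ∧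
        ((g x 0 0 : ℝ) : ℂ) * pd 1 W x =
          (((g x 0 1 : ℝ) : ℂ) + I * ((√(g x).det : ℝ) : ℂ)) * pd 0 W x := by
  set τ : E2 → ℂ := fun x => (((g x 0 1 : ℝ) : ℂ) + I * ((√(g x).det : ℝ) : ℂ)) /
    ((g x 0 0 : ℝ) : ℂ) with hτdef
  have hτim : ∀ x ∈ Ω, 0 < (τ x).im := by
    intro x hx
    have h1 : (τ x).im = √(g x).det / g x 0 0 := by
      simp only [hτdef]
      rw [Complex.div_ofReal_im]
      simp
    rw [h1]
    exact div_pos (Real.sqrt_pos.2 (hdet x hx)) (h0 x hx)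
  have hτne : ∀ x ∈ Ω, I + τ x ≠ 0 := by
    intro x hx h
    have h1 := congrArg Complex.im h
    have h2 := hτim x hx
    simp at h1
    linarith
  have hτs : ∀ x ∈ Ω, ContDiffAt ℝ ∞ τ x := by
    intro x hx
    have hgx : ∀ i j, ContDiffAt ℝ ∞ (fun x => g x i j) x := fun i j =>
      (hg i j).contDiffAt (hΩ.mem_nhds hx)
    have hd : ContDiffAt ℝ ∞ (fun x => (g x).det) x := by
      simp only [Matrix.det_fin_two]
      exact ((hgx 0 0).mul (hgx 1 1)).sub ((hgx 0 1).mul (hgx 1 0))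
    have hs' : ContDiffAt ℝ ∞ (fun x => √(g x).det) x := hd.sqrt (hdet x hx).ne'
    have hc : ∀ f : E2 → ℝ, ContDiffAt ℝ ∞ f x → ContDiffAt ℝ ∞ (fun x => ((f x : ℝ) : ℂ)) x :=
      fun f hf => Complex.ofRealCLM.contDiff.contDiffAt.comp x hf
    exact ((hc _ (hgx 0 1)).add (contDiffAt_const.mul (hc _ hs'))).mul
      ((hc _ (hgx 0 0)).inv (Complex.ofReal_ne_zero.2 (h0 x hx).ne'))
  set U : Set ℂ := Iso_m x₀ ⁻¹' Ω with hU
  have hUo : IsOpen U := hΩ.preimage (Iso_m_contDiff x₀).continuous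
  have h0U : (0 : ℂ) ∈ U := by
    show Iso_m x₀ 0 ∈ Ω
    rwa [Iso_m_zero]
  set μ : ℂ → ℂ := fun z => (I - τ (Iso_m x₀ z)) / (I + τ (Iso_m x₀ z)) with hμdef
  have hμ : ContDiffOn ℝ ∞ μ U := by
    intro z hz
    refine ContDiffAt.contDiffWithinAt ?_
    have h1 : ContDiffAt ℝ ∞ (fun z => τ (Iso_m x₀ z)) z :=
      (hτs _ hz).comp z (Iso_m_contDiff x₀).contDiffAt
    exact (contDiffAt_const.sub h1).mul ((contDiffAt_const.add h1).inv (hτne _ hz))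
  have hμ0 : ‖μ 0‖ < 1 := by
    simp only [hμdef]
    rw [Iso_m_zero]
    exact Iso_norm_lt (hτim x₀ hx)
  obtain ⟨r, hr, hrU, w, hws, hw0, hw⟩ := beltrami hUo h0U hμ hμ0
  have hℓs : ContDiff ℝ 3 (fun x : E2 => Iso_L (x - x₀)) :=
    Iso_L.contDiff.comp (contDiff_id.sub contDiff_const)
  refine ⟨fun x => w (Iso_L (x - x₀)), (fun x : E2 => Iso_L (x - x₀)) ⁻¹' Metric.ball 0 r,
    Metric.isOpen_ball.preimage hℓs.continuous, ?_, ?_, hws.comp hℓs, ?_, ?_⟩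
  · show Iso_L (x₀ - x₀) ∈ Metric.ball (0 : ℂ) r
    rw [sub_self, map_zero]
    exact Metric.mem_ball_self hr
  · intro x hxV
    have h1 : Iso_L (x - x₀) ∈ U := hrU hxV
    have h2 : Iso_m x₀ (Iso_L (x - x₀)) ∈ Ω := h1
    rwa [Iso_m_L] at h2
  · show w (Iso_L (x₀ - x₀)) = 0
    rw [sub_self, map_zero, hw0]
  · intro x hxV
    have h1 : Iso_L (x - x₀) ∈ U := hrU hxV
    have hxΩ : x ∈ Ω := by
      have h2 : Iso_m x₀ (Iso_L (x - x₀)) ∈ Ω := h1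
      rwa [Iso_m_L] at h2
    obtain ⟨e1, e2⟩ := hw (Iso_L (x - x₀)) hxV
    set ζ := Iso_L (x - x₀) with hζ
    have hf : HasFDerivAt (fun x : E2 => w (Iso_L (x - x₀))) ((fderiv ℝ w ζ).comp Iso_L) x := by
      have h3 : HasFDerivAt (fun x : E2 => Iso_L (x - x₀)) Iso_L x := by
        have h4 := Iso_L.hasFDerivAt (x := x - x₀)
        have h5 : HasFDerivAt (fun x : E2 => x - x₀) (ContinuousLinearMap.id ℝ E2) x :=
          (hasFDerivAt_id x).sub_const x₀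
        have h6 := h4.comp x h5
        rwa [ContinuousLinearMap.comp_id] at h6
      exact ((hws.differentiable (by norm_num)) ζ).hasFDerivAt.comp x h3
    have hp0 : pd 0 (fun x : E2 => w (Iso_L (x - x₀))) x = FC34.px w ζ := by
      unfold pd FC34.px
      rw [hf.fderiv]
      show fderiv ℝ w ζ (Iso_L (bv 0)) = _
      rw [Iso_L_apply]
      simp [bv]
    have hp1 : pd 1 (fun x : E2 => w (Iso_L (x - x₀))) x = FC34.py w ζ := by
      unfold pd FC34.py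
      rw [hf.fderiv]
      show fderiv ℝ w ζ (Iso_L (bv 1)) = _
      rw [Iso_L_apply]
      simp [bv]
    have hII : I * I = -1 := Complex.I_mul_I
    have hx' : FC34.px w ζ = FC34.dz w ζ + FC34.dbar w ζ := by
      unfold FC34.dz FC34.dbar
      ring
    have hy' : FC34.py w ζ = I * (FC34.dz w ζ - FC34.dbar w ζ) := by
      unfold FC34.dz FC34.dbar
      linear_combination (FC34.py w ζ) * hII
    have hμζ : μ ζ = (I - τ x) / (I + τ x) := by
      simp only [hμdef]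
      rw [hζ, Iso_m_L]
    have hne := hτne x hxΩ
    have hg0 : ((g x 0 0 : ℝ) : ℂ) ≠ 0 := Complex.ofReal_ne_zero.2 (h0 x hxΩ).ne'
    have k1 : FC34.px w ζ = 2 * I / (I + τ x) * FC34.dz w ζ := by
      rw [hx', e1, hμζ]
      field_simp
      ring
    have k2 : FC34.py w ζ = τ x * (2 * I / (I + τ x) * FC34.dz w ζ) := by
      rw [hy', e1, hμζ]
      field_simp
      ring
    rw [hp0, hp1]
    constructor
    · rw [k1]
      exact mul_ne_zero (div_ne_zero (mul_ne_zero two_ne_zero Complex.I_ne_zero) hne) e2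
    · rw [k2, ← k1]
      have h7 : ((g x 0 0 : ℝ) : ℂ) * τ x =
          ((g x 0 1 : ℝ) : ℂ) + I * ((√(g x).det : ℝ) : ℂ) := by
        simp only [hτdef]
        field_simp
      rw [← mul_assoc, h7]

end FC9
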