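import Pool.Agent.W_fc1c69_h9.Fou

/-!
# MP_fc1c69_an, Layer 5, stubs `Neu`: Neumann series in weighted `L¹`
-/

open Complex MeasureTheory Metric
open scoped ContDiff

namespace FC9

/-- The operator `f ↦ m ⋆ (sy f)`. -/
noncomputable def TT (m f : ℂ → ℂ) (ξ : ℂ) : ℂ := ∫ η, m (ξ - η) * (sy η * f η)

theorem Neu_wt_pos (ξ : ℂ) : 0 < wt ξ := by
  unfold wt
  positivity

theorem Neu_one_le_wt (ξ : ℂ) : 1 ≤ wt ξ := by
  unfold wt
  have := norm_nonneg ξ
  nlinarith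

theorem Neu_wt_cont : Continuous wt := by
  unfold wt
  fun_prop

theorem Neu_wt_mul (ξ η : ℂ) : wt ξ ≤ wt (ξ - η) * wt η := by
  unfold wt
  have h1 : ‖ξ‖ ≤ ‖ξ - η‖ + ‖η‖ := by
    have := norm_add_le (ξ - η) η
    rwa [sub_add_cancel] at this
  have h2 := norm_nonneg (ξ - η)
  have h3 := norm_nonneg η
  have h4 := norm_nonneg ξ
  rw [← mul_pow]
  refine pow_le_pow_left₀ (by positivity) ?_ 2
  nlinarith [mul_nonneg h2 h3]

theorem Neu_sy_norm (ξ : ℂ) : ‖sy ξ‖ ≤ 1 := by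
  unfold sy
  rw [norm_div, RCLike.norm_conj]
  exact div_self_le_one _

theorem Neu_sy_meas : Measurable sy := by
  unfold sy
  exact (Complex.continuous_conj.measurable).div measurable_id

theorem Neu_ee_norm (ξ z : ℂ) : ‖ee ξ z‖ = 1 := by
  unfold ee
  rw [show (2 * (Real.pi : ℂ) * I * ((inner ℝ ξ z : ℝ) : ℂ)) =
    ((2 * Real.pi * (inner ℝ ξ z : ℝ) : ℝ) : ℂ) * I by push_cast; ring]
  exact Complex.norm_exp_ofReal_mul_I _

theorem Neu_ee_mul (ξ η z : ℂ) : ee ξ z = ee (ξ - η) z * ee η z := by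
  unfold ee
  rw [← Complex.exp_add, ← mul_add, ← Complex.ofReal_add, ← inner_add_left, sub_add_cancel]

theorem Neu_ee_cont (z : ℂ) : Continuous fun ξ => ee ξ z := by
  unfold ee
  fun_prop

theorem Neu_int {f : ℂ → ℂ} (hf : AEStronglyMeasurable f volume)
    (hfi : Integrable (fun ξ => wt ξ * ‖f ξ‖)) : Integrable f := by
  refine hfi.mono' hf (Filter.Eventually.of_forall fun ξ => ?_)
  have := Neu_one_le_wt ξ
  have h2 := norm_nonneg (f ξ)
  nlinarith

theorem Neu_sy_ae {f : ℂ → ℂ} (hf : AEStronglyMeasurable f volume) :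
    AEStronglyMeasurable (fun ξ => sy ξ * f ξ) volume :=
  Neu_sy_meas.aestronglyMeasurable.mul hf

theorem Neu_sy_int {f : ℂ → ℂ} (hf : AEStronglyMeasurable f volume)
    (hfi : Integrable (fun ξ => wt ξ * ‖f ξ‖)) : Integrable (fun ξ => sy ξ * f ξ) := by
  refine (Neu_int hf hfi).norm.mono' (Neu_sy_ae hf) (Filter.Eventually.of_forall fun ξ => ?_)
  rw [norm_mul]
  have := Neu_sy_norm ξ
  have h2 := norm_nonneg (f ξ)
  nlinarith

theorem Neu_TT_conv (m f : ℂ → ℂ) :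
    TT m f = convolution (fun η => sy η * f η) m (ContinuousLinearMap.mul ℝ ℂ) volume := by
  funext ξ
  unfold TT convolution
  refine integral_congr_ae (Filter.Eventually.of_forall fun η => ?_)
  show m (ξ - η) * (sy η * f η) = (sy η * f η) * m (ξ - η)
  ring

/-- PROOF.  `TT m f` is (up to the order of the factors) Mathlib's `convolution` of `sy * f` and `m`
with the multiplication of `ℂ`; `‖sy‖ ≤ 1`, `sy` measurable.  `wt ξ ≤ wt (ξ - η) * wt η`
(`1 + ‖ξ‖ ≤ (1 + ‖ξ-η‖)(1 + ‖η‖)`), so `wt ξ * ‖TT m f ξ‖ ≤ ((wt ‖m‖) ⋆ (wt ‖f‖)) ξ`, and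
`integral_convolution` / `Integrable.integrable_convolution` give integrability and the bound. -/
theorem TT_weighted {m f : ℂ → ℂ} (hm : Continuous m) (hmi : Integrable (fun ξ => wt ξ * ‖m ξ‖))
    (hf : AEStronglyMeasurable f volume) (hfi : Integrable (fun ξ => wt ξ * ‖f ξ‖)) :
    AEStronglyMeasurable (TT m f) volume ∧ Integrable (fun ξ => wt ξ * ‖TT m f ξ‖) ∧
      ∫ ξ, wt ξ * ‖TT m f ξ‖ ≤ (∫ ξ, wt ξ * ‖m ξ‖) * ∫ ξ, wt ξ * ‖f ξ‖ := by
  have hmI : Integrable m := Neu_int hm.aestronglyMeasurable hmi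
  have hFI := Neu_sy_int hf hfi
  have hTI : Integrable (TT m f) := by
    rw [Neu_TT_conv]
    exact hFI.integrable_convolution (ContinuousLinearMap.mul ℝ ℂ) hmI
  have hcI := hfi.integrable_convolution (ContinuousLinearMap.mul ℝ ℝ) hmi
  have hcE := hfi.ae_convolution_exists (ContinuousLinearMap.mul ℝ ℝ) hmi
  have hb : ∀ᵐ ξ, wt ξ * ‖TT m f ξ‖ ≤ convolution (fun ξ => wt ξ * ‖f ξ‖)
      (fun ξ => wt ξ * ‖m ξ‖) (ContinuousLinearMap.mul ℝ ℝ) volume ξ := by
    filter_upwards [hcE] with ξ hξ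
    have h1 : wt ξ * ‖TT m f ξ‖ = ‖∫ η, (wt ξ : ℂ) * (m (ξ - η) * (sy η * f η))‖ := by
      rw [integral_const_mul, norm_mul, Complex.norm_real, Real.norm_eq_abs,
        abs_of_pos (Neu_wt_pos ξ)]
      rfl
    rw [h1]
    refine norm_integral_le_of_norm_le hξ (Filter.Eventually.of_forall fun η => ?_)
    show ‖(wt ξ : ℂ) * (m (ξ - η) * (sy η * f η))‖ ≤ (wt η * ‖f η‖) * (wt (ξ - η) * ‖m (ξ - η)‖)
    rw [norm_mul, norm_mul, norm_mul, Complex.norm_real, Real.norm_eq_abs,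
      abs_of_pos (Neu_wt_pos ξ)]
    have h2 := Neu_wt_mul ξ η
    have h3 := Neu_sy_norm η
    have h4 := norm_nonneg (m (ξ - η))
    have h5 := norm_nonneg (f η)
    have h6 := Neu_wt_pos ξ
    calc wt ξ * (‖m (ξ - η)‖ * (‖sy η‖ * ‖f η‖))
        ≤ wt ξ * (‖m (ξ - η)‖ * (1 * ‖f η‖)) := by gcongr
      _ ≤ (wt (ξ - η) * wt η) * (‖m (ξ - η)‖ * (1 * ‖f η‖)) := by
          refine mul_le_mul_of_nonneg_right h2 (by positivity)
      _ = _ := by ring
  have hI : Integrable (fun ξ => wt ξ * ‖TT m f ξ‖) := by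
    refine hcI.mono' (Neu_wt_cont.aestronglyMeasurable.mul hTI.aestronglyMeasurable.norm) ?_
    filter_upwards [hb] with ξ hξ
    rw [Real.norm_eq_abs, abs_of_nonneg (mul_nonneg (Neu_wt_pos ξ).le (norm_nonneg _))]
    exact hξ
  refine ⟨hTI.aestronglyMeasurable, hI, ?_⟩
  refine (integral_mono_ae hI hcI hb).trans (le_of_eq ?_)
  rw [integral_convolution (ContinuousLinearMap.mul ℝ ℝ) hfi hmi]
  show (∫ ξ, wt ξ * ‖f ξ‖) * (∫ ξ, wt ξ * ‖m ξ‖) = _
  ring

/-- PROOF.  `ee ξ z = ee (ξ - η) z * ee η z`, so `ee ξ z * TT m f ξ` is the convolution of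
`ee · z * m` and `ee · z * (sy * f)`; `integral_convolution`.  (`‖ee ξ z‖ = 1`; `m` and `f` are
integrable because `1 ≤ wt`.) -/
theorem TT_fourier {m f : ℂ → ℂ} (hm : Continuous m) (hmi : Integrable (fun ξ => wt ξ * ‖m ξ‖))
    (hf : AEStronglyMeasurable f volume) (hfi : Integrable (fun ξ => wt ξ * ‖f ξ‖)) (z : ℂ) :
    ∫ ξ, ee ξ z * TT m f ξ = (∫ ξ, ee ξ z * m ξ) * ∫ ξ, ee ξ z * (sy ξ * f ξ) := by
  have hmI : Integrable m := Neu_int hm.aestronglyMeasurable hmi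
  have hFI := Neu_sy_int hf hfi
  have hec := Neu_ee_cont z
  have h1 : Integrable (fun ξ => ee ξ z * m ξ) := by
    refine hmI.norm.mono' (hec.aestronglyMeasurable.mul hm.aestronglyMeasurable)
      (Filter.Eventually.of_forall fun ξ => ?_)
    rw [norm_mul, Neu_ee_norm, one_mul]
  have h2 : Integrable (fun ξ => ee ξ z * (sy ξ * f ξ)) := by
    refine hFI.norm.mono' (hec.aestronglyMeasurable.mul hFI.aestronglyMeasurable)
      (Filter.Eventually.of_forall fun ξ => ?_)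
    rw [norm_mul, Neu_ee_norm, one_mul]
  have h3 : ∀ ξ, ee ξ z * TT m f ξ = convolution (fun η => ee η z * (sy η * f η))
      (fun η => ee η z * m η) (ContinuousLinearMap.mul ℝ ℂ) volume ξ := by
    intro ξ
    unfold TT convolution
    rw [← integral_const_mul]
    refine integral_congr_ae (Filter.Eventually.of_forall fun η => ?_)
    show ee ξ z * (m (ξ - η) * (sy η * f η)) =
      (ee η z * (sy η * f η)) * (ee (ξ - η) z * m (ξ - η))
    rw [Neu_ee_mul ξ η z]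
    ring
  simp only [h3]
  rw [integral_convolution (ContinuousLinearMap.mul ℝ ℂ) h2 h1]
  show (∫ ξ, ee ξ z * (sy ξ * f ξ)) * (∫ ξ, ee ξ z * m ξ) = _
  ring

end FC9
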