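import Pool.Agent.W_fc1c69_h9.Defs

/-!
# MP_fc1c69_an, Layer 5, stubs `Piola`: change of variables in the Laplacian
-/

open Complex Metric
open scoped ContDiff

namespace FC9

/-- the partial derivative from a derivative -/
theorem Piola_pd {f : E2 → ℝ} {f' : E2 →L[ℝ] ℝ} {x : E2} (h : HasFDerivAt f f' x) (i : Fin 2) :
    pd i f x = f' (bv i) := by
  unfold pd
  rw [h.fderiv]

theorem Piola_fd {E F : Type} [NormedAddCommGroup E] [NormedSpace ℝ E] [NormedAddCommGroup F]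
    [NormedSpace ℝ F] {f : E → F} {x : E} (h : ContDiffAt ℝ 2 f x) :
    HasFDerivAt (fderiv ℝ f) (fderiv ℝ (fderiv ℝ f) x) x := by
  have h1 : ContDiffAt ℝ 1 (fderiv ℝ f) x := h.fderiv_right (by norm_num)
  exact (h1.differentiableAt (by norm_num)).hasFDerivAt

theorem Piola_split (T : ℂ →L[ℝ] ℝ) (c : ℂ) : T c = c.re * T 1 + c.im * T I := by
  have h1 : c = c.re • (1 : ℂ) + c.im • I := by
    simp [Complex.re_add_im]
  conv_lhs => rw [h1]
  rw [map_add, map_smul, map_smul, smul_eq_mul, smul_eq_mul]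

theorem Piola_split2 (T : ℂ →L[ℝ] ℂ →L[ℝ] ℝ) (c d : ℂ) :
    T c d = c.re * T 1 d + c.im * T I d := by
  have h1 : c = c.re • (1 : ℂ) + c.im • I := by
    simp [Complex.re_add_im]
  conv_lhs => rw [h1]
  rw [map_add, map_smul, map_smul]
  rfl

/-- PROOF (Piola identity).  Chain rule: `pd i (fun y => px v (W y)) x =
px (px v) (W x) * (pd i W x).re + py (px v) (W x) * (pd i W x).im`, the same for `py v`; product rule; the
terms with second derivatives of `W` cancel because `pd 0 (pd 1 W) = pd 1 (pd 0 W)`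
(`ContDiffAt.isSymmSndFDerivAt`); the mixed derivatives `px (py v) = py (px v)` of `v` are equal for
the same reason. -/
theorem piola {W : E2 → ℂ} {v : ℂ → ℝ} {x : E2} (hW : ContDiffAt ℝ 2 W x)
    (hv : ContDiffAt ℝ 2 v (W x)) :
    pd 0 (fun y => (pd 1 W y).im * FC34.px v (W y) - (pd 1 W y).re * FC34.py v (W y)) x +
      pd 1 (fun y => (pd 0 W y).re * FC34.py v (W y) - (pd 0 W y).im * FC34.px v (W y)) x =
    ((pd 0 W x).re * (pd 1 W x).im - (pd 0 W x).im * (pd 1 W x).re) * FC34.lap v (W x) := by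
  have hA := Piola_fd hW
  have hH := Piola_fd hv
  have hWd : HasFDerivAt W (fderiv ℝ W x) x := (hW.differentiableAt (by norm_num)).hasFDerivAt
  have hsym : ∀ c d, fderiv ℝ (fderiv ℝ W) x c d = fderiv ℝ (fderiv ℝ W) x d c := by
    have h1 : IsSymmSndFDerivAt ℝ W x := hW.isSymmSndFDerivAt (by simp)
    exact fun c d => h1 c d
  obtain ⟨A', hA'⟩ : ∃ A', A' = fderiv ℝ (fderiv ℝ W) x := ⟨_, rfl⟩
  obtain ⟨H, hH'⟩ : ∃ H, H = fderiv ℝ (fderiv ℝ v) (W x) := ⟨_, rfl⟩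
  obtain ⟨A, hAx⟩ : ∃ A, A = fderiv ℝ W x := ⟨_, rfl⟩
  rw [← hA'] at hA hsym
  rw [← hH'] at hH
  rw [← hAx] at hWd
  -- the derivatives of the partial derivatives of `W`
  have hpd : ∀ i, HasFDerivAt (fun y => pd i W y)
      ((ContinuousLinearMap.apply ℝ ℂ (bv i)).comp A') x := fun i =>
    (ContinuousLinearMap.apply ℝ ℂ (bv i)).hasFDerivAt.comp x hA
  have hre : ∀ i, HasFDerivAt (fun y => (pd i W y).re)
      (Complex.reCLM.comp ((ContinuousLinearMap.apply ℝ ℂ (bv i)).comp A')) x := fun i =>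
    Complex.reCLM.hasFDerivAt.comp x (hpd i)
  have him : ∀ i, HasFDerivAt (fun y => (pd i W y).im)
      (Complex.imCLM.comp ((ContinuousLinearMap.apply ℝ ℂ (bv i)).comp A')) x := fun i =>
    Complex.imCLM.hasFDerivAt.comp x (hpd i)
  -- the derivatives of the partial derivatives of `v`
  have hDv : HasFDerivAt (fun y => fderiv ℝ v (W y)) (H.comp A) x := hH.comp x hWd
  have hv1 : HasFDerivAt (fun y => FC34.px v (W y))
      ((ContinuousLinearMap.apply ℝ ℝ (1 : ℂ)).comp (H.comp A)) x :=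
    (ContinuousLinearMap.apply ℝ ℝ (1 : ℂ)).hasFDerivAt.comp x hDv
  have hv2 : HasFDerivAt (fun y => FC34.py v (W y))
      ((ContinuousLinearMap.apply ℝ ℝ I).comp (H.comp A)) x :=
    (ContinuousLinearMap.apply ℝ ℝ I).hasFDerivAt.comp x hDv
  have hx1 : FC34.px (FC34.px v) (W x) = H 1 1 := by
    have h1 : HasFDerivAt (fun z => FC34.px v z)
        ((ContinuousLinearMap.apply ℝ ℝ (1 : ℂ)).comp H) (W x) :=
      (ContinuousLinearMap.apply ℝ ℝ (1 : ℂ)).hasFDerivAt.comp (W x) hH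
    show fderiv ℝ (fun z => FC34.px v z) (W x) 1 = _
    rw [h1.fderiv]
    rfl
  have hx2 : FC34.py (FC34.py v) (W x) = H I I := by
    have h1 : HasFDerivAt (fun z => FC34.py v z)
        ((ContinuousLinearMap.apply ℝ ℝ I).comp H) (W x) :=
      (ContinuousLinearMap.apply ℝ ℝ I).hasFDerivAt.comp (W x) hH
    show fderiv ℝ (fun z => FC34.py v z) (W x) I = _
    rw [h1.fderiv]
    rfl
  have e1 := Piola_pd (((him 1).mul hv1).sub ((hre 1).mul hv2)) 0
  have e2 := Piola_pd (((hre 0).mul hv2).sub ((him 0).mul hv1)) 1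
  have e1' : pd 0 (fun y => (pd 1 W y).im * FC34.px v (W y) -
      (pd 1 W y).re * FC34.py v (W y)) x = _ := e1
  have e2' : pd 1 (fun y => (pd 0 W y).re * FC34.py v (W y) -
      (pd 0 W y).im * FC34.px v (W y)) x = _ := e2
  rw [e1', e2']
  have ha : pd 0 W x = A (bv 0) := by rw [hAx]; rfl
  have hb : pd 1 W x = A (bv 1) := by rw [hAx]; rfl
  show ((pd 1 W x).im * H (A (bv 0)) 1 + FC34.px v (W x) * (A' (bv 0) (bv 1)).im -
      ((pd 1 W x).re * H (A (bv 0)) I + FC34.py v (W x) * (A' (bv 0) (bv 1)).re)) +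
    ((pd 0 W x).re * H (A (bv 1)) I + FC34.py v (W x) * (A' (bv 1) (bv 0)).re -
      ((pd 0 W x).im * H (A (bv 1)) 1 + FC34.px v (W x) * (A' (bv 1) (bv 0)).im)) =
    ((pd 0 W x).re * (pd 1 W x).im - (pd 0 W x).im * (pd 1 W x).re) *
      (FC34.px (FC34.px v) (W x) + FC34.py (FC34.py v) (W x))
  rw [hsym (bv 0) (bv 1), ha, hb, hx1, hx2, Piola_split2 H (A (bv 0)) 1,
    Piola_split2 H (A (bv 0)) I, Piola_split2 H (A (bv 1)) 1, Piola_split2 H (A (bv 1)) I]
  ring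

/-- PROOF.  Write `D = √det`, `a = pd 0 W`, `b = pd 1 W`; `D² = g00 g11 - g01²`.  The hypothesis says
`g00 b = (g01 + I D) a`; it implies `g11 a - g01 b = - I D b` (multiply by `g00`) and
`g00 b - g01 a = I D a`.  With `u = v ∘ W`: `pd 0 u = v1 a.re + v2 a.im`, `pd 1 u = v1 b.re + v2 b.im`
(`v1 = px v (W y)`, `v2 = py v (W y)`), and `g⁻¹ = (1/D²) [[g11, -g01], [-g01, g00]]`, so near `x`
`√det * ∑ j, g⁻¹ 0 j * pd j u = b.im v1 - b.re v2` and
`√det * ∑ j, g⁻¹ 1 j * pd j u = a.re v2 - a.im v1`.  Now `piola` and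
`a.re b.im - a.im b.re = Im (conj a * b) = ‖a‖² D / g00`. -/
theorem lb_comp {g : E2 → Matrix (Fin 2) (Fin 2) ℝ} {V : Set E2} (hV : IsOpen V)
    (h0 : ∀ x ∈ V, 0 < g x 0 0) (hs : ∀ x ∈ V, g x 1 0 = g x 0 1) (hdet : ∀ x ∈ V, 0 < (g x).det)
    {W : E2 → ℂ} (hW : ContDiffOn ℝ 2 W V)
    (hCR : ∀ x ∈ V, ((g x 0 0 : ℝ) : ℂ) * pd 1 W x =
      (((g x 0 1 : ℝ) : ℂ) + I * ((√(g x).det : ℝ) : ℂ)) * pd 0 W x)
    {v : ℂ → ℝ} (hv : ∀ x ∈ V, ContDiffAt ℝ 2 v (W x)) {x : E2} (hx : x ∈ V) :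
    lb g (fun y => v (W y)) x = ‖pd 0 W x‖ ^ 2 / g x 0 0 * FC34.lap v (W x) := by
  have hD : ∀ y ∈ V, 0 < √(g y).det := fun y hy => Real.sqrt_pos.2 (hdet y hy)
  have hD2 : ∀ y ∈ V, √(g y).det ^ 2 = g y 0 0 * g y 1 1 - g y 0 1 ^ 2 := by
    intro y hy
    rw [Real.sq_sqrt (hdet y hy).le, Matrix.det_fin_two, hs y hy]
    ring
  have hre : ∀ y ∈ V, g y 0 0 * (pd 1 W y).re =
      g y 0 1 * (pd 0 W y).re - √(g y).det * (pd 0 W y).im := by
    intro y hy
    have h1 := congrArg Complex.re (hCR y hy)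
    simp only [Complex.mul_re, Complex.mul_im, Complex.add_re, Complex.add_im, Complex.ofReal_re,
      Complex.ofReal_im, Complex.I_re, Complex.I_im] at h1
    linarith
  have him : ∀ y ∈ V, g y 0 0 * (pd 1 W y).im =
      g y 0 1 * (pd 0 W y).im + √(g y).det * (pd 0 W y).re := by
    intro y hy
    have h1 := congrArg Complex.im (hCR y hy)
    simp only [Complex.mul_re, Complex.mul_im, Complex.add_re, Complex.add_im, Complex.ofReal_re,
      Complex.ofReal_im, Complex.I_re, Complex.I_im] at h1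
    linarith
  have hre2 : ∀ y ∈ V, g y 1 1 * (pd 0 W y).re - g y 0 1 * (pd 1 W y).re =
      √(g y).det * (pd 1 W y).im := by
    intro y hy
    apply mul_left_cancel₀ (h0 y hy).ne'
    linear_combination (-(g y 0 1)) * hre y hy - √(g y).det * him y hy -
      (pd 0 W y).re * hD2 y hy
  have him2 : ∀ y ∈ V, g y 1 1 * (pd 0 W y).im - g y 0 1 * (pd 1 W y).im =
      -(√(g y).det * (pd 1 W y).re) := by
    intro y hy
    apply mul_left_cancel₀ (h0 y hy).ne'
    linear_combination (-(g y 0 1)) * him y hy + √(g y).det * hre y hy -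
      (pd 0 W y).im * hD2 y hy
  have hWd : ∀ y ∈ V, HasFDerivAt W (fderiv ℝ W y) y := fun y hy =>
    ((hW.contDiffAt (hV.mem_nhds hy)).differentiableAt (by norm_num)).hasFDerivAt
  have hu : ∀ y ∈ V, ∀ j, pd j (fun y => v (W y)) y =
      (pd j W y).re * FC34.px v (W y) + (pd j W y).im * FC34.py v (W y) := by
    intro y hy j
    have h1 : HasFDerivAt v (fderiv ℝ v (W y)) (W y) :=
      ((hv y hy).differentiableAt (by norm_num)).hasFDerivAt
    have h2 : pd j (fun y => v (W y)) y = _ := Piola_pd (h1.comp y (hWd y hy)) j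
    rw [h2]
    exact Piola_split (fderiv ℝ v (W y)) (pd j W y)
  have hinv : ∀ y ∈ V, (g y)⁻¹ 0 0 = g y 1 1 / √(g y).det ^ 2 ∧
      (g y)⁻¹ 0 1 = -(g y 0 1) / √(g y).det ^ 2 ∧ (g y)⁻¹ 1 0 = -(g y 0 1) / √(g y).det ^ 2 ∧
      (g y)⁻¹ 1 1 = g y 0 0 / √(g y).det ^ 2 := by
    intro y hy
    rw [Real.sq_sqrt (hdet y hy).le, Matrix.inv_def, Ring.inverse_eq_inv', Matrix.adjugate_fin_two]
    refine ⟨?_, ?_, ?_, ?_⟩
    · simp [div_eq_inv_mul]
    · simp [div_eq_inv_mul]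
    · simp [div_eq_inv_mul, hs y hy]
    · simp [div_eq_inv_mul]
  have hF0 : ∀ y ∈ V, √(g y).det * ∑ j, (g y)⁻¹ 0 j * pd j (fun y => v (W y)) y =
      (pd 1 W y).im * FC34.px v (W y) - (pd 1 W y).re * FC34.py v (W y) := by
    intro y hy
    obtain ⟨i1, i2, i3, i4⟩ := hinv y hy
    have hDy := (hD y hy).ne'
    rw [Fin.sum_univ_two, i1, i2, hu y hy, hu y hy]
    field_simp
    linear_combination FC34.px v (W y) * hre2 y hy + FC34.py v (W y) * him2 y hy
  have hF1 : ∀ y ∈ V, √(g y).det * ∑ j, (g y)⁻¹ 1 j * pd j (fun y => v (W y)) y =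
      (pd 0 W y).re * FC34.py v (W y) - (pd 0 W y).im * FC34.px v (W y) := by
    intro y hy
    obtain ⟨i1, i2, i3, i4⟩ := hinv y hy
    have hDy := (hD y hy).ne'
    rw [Fin.sum_univ_two, i3, i4, hu y hy, hu y hy]
    field_simp
    linear_combination FC34.px v (W y) * hre y hy + FC34.py v (W y) * him y hy
  have hpde : ∀ (i : Fin 2) (f f' : E2 → ℝ), (∀ y ∈ V, f y = f' y) → pd i f x = pd i f' x := by
    intro i f f' h1
    unfold pd
    have h2 : f =ᶠ[nhds x] f' := by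
      filter_upwards [hV.mem_nhds hx] with y hy
      exact h1 y hy
    rw [h2.fderiv_eq]
  unfold lb
  rw [Fin.sum_univ_two, hpde 0 _ _ hF0, hpde 1 _ _ hF1,
    piola (hW.contDiffAt (hV.mem_nhds hx)) (hv x hx)]
  have hn : ‖pd 0 W x‖ ^ 2 = (pd 0 W x).re ^ 2 + (pd 0 W x).im ^ 2 := by
    rw [← Complex.normSq_eq_norm_sq, Complex.normSq_apply]
    ring
  have hDx := (hD x hx).ne'
  have hgx := (h0 x hx).ne'
  rw [hn]
  have hkey : g x 0 0 * ((pd 0 W x).re * (pd 1 W x).im - (pd 0 W x).im * (pd 1 W x).re) =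
      √(g x).det * ((pd 0 W x).re ^ 2 + (pd 0 W x).im ^ 2) := by
    linear_combination (pd 0 W x).re * him x hx - (pd 0 W x).im * hre x hx
  field_simp
  linear_combination FC34.lap v (W x) * hkey

end FC9
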