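import Pool.Agent.W_fc1c69_h9.Iso
import Pool.Agent.W_fc1c69_h9.Piola

/-!
# MP_fc1c69_an, Layer 5, stub `Param`: isothermal parametrisation of a piece of the plane
-/

open Complex Metric
open scoped ContDiff Topology

namespace FC9

/-- `Z` is an isothermal parametrisation of a neighbourhood of `x₀` for the metric `g`. -/
structure IsoParam (Ω : Set E2) (g : E2 → Matrix (Fin 2) (Fin 2) ℝ) (x₀ : E2) (ρ L q₁ l : ℝ)
    (Z : ℂ → E2) (q : ℂ → ℝ) : Prop where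
  hρ : 0 < ρ
  hL : 1 ≤ L
  hq₁ : 0 ≤ q₁
  hl : 0 ≤ l
  zero : Z 0 = x₀
  maps : ∀ z ∈ ball (0 : ℂ) ρ, Z z ∈ Ω
  nhds : Z '' ball (0 : ℂ) ρ ∈ 𝓝 x₀
  smooth : ContDiffOn ℝ 3 Z (ball (0 : ℂ) ρ)
  lip : ∀ z ∈ ball (0 : ℂ) ρ, ∀ w ∈ ball (0 : ℂ) ρ, ‖Z z - Z w‖ ≤ L * ‖z - w‖
  antilip : ∀ z ∈ ball (0 : ℂ) ρ, ∀ w ∈ ball (0 : ℂ) ρ, ‖z - w‖ ≤ L * ‖Z z - Z w‖
  qd : ∀ z ∈ ball (0 : ℂ) ρ, DifferentiableAt ℝ q z
  ql : ∀ z ∈ ball (0 : ℂ) ρ, ‖fderiv ℝ q z‖ ≤ l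
  qb : ∀ z ∈ ball (0 : ℂ) ρ, 0 ≤ q z ∧ q z ≤ q₁
  lap : ∀ u : E2 → ℝ, ContDiffOn ℝ 3 u Ω → ∀ z ∈ ball (0 : ℂ) ρ,
    FC34.lap (fun z => u (Z z)) z = q z * lb g u (Z z)

theorem Param_zero {g0 g1 D : ℝ} {a b : ℂ} (hg : 0 < g0) (hD : 0 < D) (ha : a ≠ 0)
    (h : ((g0 : ℝ) : ℂ) * b = (((g1 : ℝ) : ℂ) + I * ((D : ℝ) : ℂ)) * a) {s t : ℝ}
    (hst : ((s : ℝ) : ℂ) * a + ((t : ℝ) : ℂ) * b = 0) : s = 0 ∧ t = 0 := by
  have h1 : (((s * g0 + t * g1 : ℝ) : ℂ) + I * ((t * D : ℝ) : ℂ)) * a = 0 := by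
    have h2 : (((s * g0 + t * g1 : ℝ) : ℂ) + I * ((t * D : ℝ) : ℂ)) * a =
        (g0 : ℂ) * ((s : ℂ) * a + (t : ℂ) * b) := by
      push_cast
      linear_combination (-(t : ℂ)) * h
    rw [h2, hst, mul_zero]
  have h2 := (mul_eq_zero.1 h1).resolve_right ha
  have h3 := congrArg Complex.im h2
  have h4 := congrArg Complex.re h2
  rw [Complex.add_im, Complex.ofReal_im, Complex.mul_im, Complex.I_re, Complex.I_im,
    Complex.ofReal_re, Complex.ofReal_im, Complex.zero_im] at h3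
  rw [Complex.add_re, Complex.ofReal_re, Complex.mul_re, Complex.I_re, Complex.I_im,
    Complex.ofReal_re, Complex.ofReal_im, Complex.zero_re] at h4
  have h5 : t * D = 0 := by linarith
  have ht : t = 0 := (mul_eq_zero.1 h5).resolve_right hD.ne'
  subst ht
  have h6 : s * g0 = 0 := by linarith
  exact ⟨(mul_eq_zero.1 h6).resolve_right hg.ne', rfl⟩

theorem Param_equiv (A : E2 →L[ℝ] ℂ)
    (hA : ∀ s t : ℝ, ((s : ℝ) : ℂ) * A (bv 0) + ((t : ℝ) : ℂ) * A (bv 1) = 0 → s = 0 ∧ t = 0) :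
    ∃ e : E2 ≃L[ℝ] ℂ, (e : E2 →L[ℝ] ℂ) = A := by
  have hdec : ∀ v : E2, v = v 0 • bv 0 + v 1 • bv 1 := by
    intro v
    ext i
    fin_cases i <;> simp [bv]
  have hinj : Function.Injective (A : E2 →ₗ[ℝ] ℂ) := by
    rw [injective_iff_map_eq_zero]
    intro v hv
    have h2 : A v = 0 := hv
    have h1 : ((v 0 : ℝ) : ℂ) * A (bv 0) + ((v 1 : ℝ) : ℂ) * A (bv 1) = 0 := by
      have h3 : A v = A (v 0 • bv 0 + v 1 • bv 1) := congrArg A (hdec v)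
      rw [h2, map_add, map_smul, map_smul, Complex.real_smul, Complex.real_smul] at h3
      exact h3.symm
    obtain ⟨h3, h4⟩ := hA _ _ h1
    have h5 := hdec v
    rw [h3, h4, zero_smul, zero_smul, add_zero] at h5
    exact h5
  refine ⟨((A : E2 →ₗ[ℝ] ℂ).linearEquivOfInjective hinj (by simp)).toContinuousLinearEquiv, ?_⟩
  ext v
  rfl

theorem Param_lb {g : E2 → Matrix (Fin 2) (Fin 2) ℝ} {u u' : E2 → ℝ} {x : E2}
    (h : u =ᶠ[𝓝 x] u') : lb g u x = lb g u' x := by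
  have h1 : ∀ j, pd j u =ᶠ[𝓝 x] pd j u' := by
    intro j
    filter_upwards [h.fderiv (𝕜 := ℝ)] with y hy
    show fderiv ℝ u y (bv j) = fderiv ℝ u' y (bv j)
    rw [hy]
  unfold lb
  congr 1
  refine Finset.sum_congr rfl fun i _ => ?_
  have h2 : (fun y => √(g y).det * ∑ j, (g y)⁻¹ i j * pd j u y) =ᶠ[𝓝 x]
      (fun y => √(g y).det * ∑ j, (g y)⁻¹ i j * pd j u' y) := by
    filter_upwards [h1 0, h1 1] with y e0 e1
    rw [Fin.sum_univ_two, Fin.sum_univ_two, e0, e1]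
  show fderiv ℝ _ x (bv i) = fderiv ℝ _ x (bv i)
  rw [h2.fderiv_eq]

/-- PROOF.  `exists_isothermal` gives `W, V`.  `fderiv ℝ W x₀` is invertible: `a = pd 0 W x₀ ≠ 0`,
`b = pd 1 W x₀ = τ a` with `Im τ > 0`, so `a, b` are real linearly independent.  Inverse function theorem
(`ContDiffAt.toOpenPartialHomeomorph`, `ContDiffAt.to_localInverse`; or
`HasStrictFDerivAt.toOpenPartialHomeomorph`): a local homeomorphism `Φ` with `Φ = W`,
source `⊆ V`, inverse `Z` of class `C³` near `0` (`OpenPartialHomeomorph.contDiffAt_symm`).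
`q z = g (Z z) 0 0 / ‖pd 0 W (Z z)‖ ^ 2` is `C¹` near `0` (indeed `C²`), positive.
For a small radius `ρ` everything is defined on `closedBall 0 (2ρ) ⊆ Φ.target`, and continuity on the
compact ball gives the bounds; `Z` is Lipschitz on the convex ball (bounded derivative), `W` is Lipschitz
on a small ball around `x₀` (`ContDiff ℝ 3 W`), giving `antilip` (`W (Z z) = z`).
`nhds`: `Z '' ball 0 ρ` is open (homeomorphism) and contains `x₀ = Z 0`.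
`lap`: put `v z = u (Z z)`; it is `C³` near `z`, and near `Z z` one has `u = v ∘ W`, so
`lb g u (Z z) = lb g (v ∘ W) (Z z)` (`lb` only depends on the germ) and `lb_comp` on the open set
`Z '' ball 0 ρ` (shrink `ρ`) gives `lb g u (Z z) = ‖a‖²/g00 * lap v z`. -/
theorem exists_isoParam {Ω : Set E2} (hΩ : IsOpen Ω) {g : E2 → Matrix (Fin 2) (Fin 2) ℝ}
    (hg : ∀ i j, ContDiffOn ℝ ∞ (fun x => g x i j) Ω) (h0 : ∀ x ∈ Ω, 0 < g x 0 0)
    (hs : ∀ x ∈ Ω, g x 1 0 = g x 0 1) (hdet : ∀ x ∈ Ω, 0 < (g x).det) {x₀ : E2} (hx : x₀ ∈ Ω) :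
    ∃ (ρ L q₁ l : ℝ) (Z : ℂ → E2) (q : ℂ → ℝ), IsoParam Ω g x₀ ρ L q₁ l Z q := by
  obtain ⟨W, V, hVo, hxV, hVΩ, hW, hW0, hVp⟩ := exists_isothermal hΩ hg h0 hs hdet hx
  have hWd : ∀ x, HasFDerivAt W (fderiv ℝ W x) x := fun x =>
    (hW.differentiable (by norm_num) x).hasFDerivAt
  have heq : ∀ x ∈ V, ∃ e : E2 ≃L[ℝ] ℂ, (e : E2 →L[ℝ] ℂ) = fderiv ℝ W x := by
    intro x hx
    refine Param_equiv _ fun s t hst => ?_
    exact Param_zero (h0 x (hVΩ hx)) (Real.sqrt_pos.2 (hdet x (hVΩ hx))) (hVp x hx).1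
      (hVp x hx).2 hst
  obtain ⟨e₀, he₀⟩ := heq x₀ hxV
  have hd₀ : HasFDerivAt W (e₀ : E2 →L[ℝ] ℂ) x₀ := by
    rw [he₀]
    exact hWd x₀
  obtain ⟨Φ, hΦ, hsrc⟩ : ∃ Φ : OpenPartialHomeomorph E2 ℂ, (Φ : E2 → ℂ) = W ∧ x₀ ∈ Φ.source :=
    ⟨(hW.contDiffAt (x := x₀)).toOpenPartialHomeomorph W hd₀ (by norm_num), rfl,
      ContDiffAt.mem_toOpenPartialHomeomorph_source _ _ _⟩
  have hΦ' : ∀ x, Φ x = W x := fun x => congrFun hΦ x
  have h0t : (0 : ℂ) ∈ Φ.target := by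
    have := Φ.map_source hsrc
    rwa [hΦ', hW0] at this
  have hZ0 : Φ.symm 0 = x₀ := by
    have := Φ.left_inv hsrc
    rwa [hΦ', hW0] at this
  have hT : Φ.target ∩ Φ.symm ⁻¹' V ∈ 𝓝 (0 : ℂ) := by
    refine (Φ.isOpen_inter_preimage_symm hVo).mem_nhds ⟨h0t, ?_⟩
    rw [Set.mem_preimage, hZ0]
    exact hxV
  obtain ⟨ρ, hρ, hball⟩ := Metric.nhds_basis_closedBall.mem_iff.1 hT
  obtain ⟨Z, hZ⟩ : ∃ Z : ℂ → E2, Z = Φ.symm := ⟨_, rfl⟩
  have hZ0' : Z 0 = x₀ := by rw [hZ]; exact hZ0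
  have hZV : ∀ z ∈ closedBall (0 : ℂ) ρ, Z z ∈ V := fun z hz => by
    rw [hZ]; exact (hball hz).2
  have hZt : ∀ z ∈ closedBall (0 : ℂ) ρ, z ∈ Φ.target := fun z hz => (hball hz).1
  have hWZ : ∀ z ∈ closedBall (0 : ℂ) ρ, W (Z z) = z := fun z hz => by
    rw [hZ, ← hΦ']
    exact Φ.right_inv (hZt z hz)
  have hZc : ∀ z ∈ closedBall (0 : ℂ) ρ, ContDiffAt ℝ 3 Z z := by
    intro z hz
    obtain ⟨e, he⟩ := heq _ (hZV z hz)
    rw [hZ] at he ⊢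
    refine Φ.contDiffAt_symm (f₀' := e) (hZt z hz) ?_ ?_
    · rw [he, hΦ]
      exact hWd _
    · rw [hΦ]
      exact hW.contDiffAt
  have hbs : ball (0 : ℂ) ρ ⊆ closedBall (0 : ℂ) ρ := ball_subset_closedBall
  have h0c : (0 : ℂ) ∈ closedBall (0 : ℂ) ρ := mem_closedBall_self hρ.le
  obtain ⟨q, hq⟩ : ∃ q : ℂ → ℝ, q = fun z => g (Z z) 0 0 / ‖pd 0 W (Z z)‖ ^ 2 := ⟨_, rfl⟩
  have hqc : ∀ z ∈ closedBall (0 : ℂ) ρ, ContDiffAt ℝ 1 q z := by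
    intro z hz
    have hz1 : ContDiffAt ℝ 1 Z z := (hZc z hz).of_le (by norm_num)
    have h1 : ContDiffAt ℝ 1 (fun z => g (Z z) 0 0) z := by
      have h2 : ContDiffAt ℝ ∞ (fun x => g x 0 0) (Z z) :=
        (hg 0 0).contDiffAt (hΩ.mem_nhds (hVΩ (hZV z hz)))
      exact (h2.of_le (by exact_mod_cast le_top)).comp z hz1
    have h2 : ContDiff ℝ 1 (fun y => pd 0 W y) := by
      have h3 : ContDiff ℝ 1 (fderiv ℝ W) := hW.fderiv_right (by norm_num)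
      exact h3.clm_apply contDiff_const
    have h3 : ContDiffAt ℝ 1 (fun z => pd 0 W (Z z)) z := h2.contDiffAt.comp z hz1
    have h4 : ContDiffAt ℝ 1 (fun z => ‖pd 0 W (Z z)‖ ^ 2) z := h3.norm_sq ℝ
    rw [hq]
    exact h1.div h4 (pow_ne_zero 2 (norm_ne_zero_iff.2 (hVp _ (hZV z hz)).1))
  have hcpt : IsCompact (closedBall (0 : ℂ) ρ) := isCompact_closedBall _ _
  obtain ⟨l, hl⟩ := hcpt.exists_bound_of_continuousOn (f := fun z => fderiv ℝ q z)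
    (fun z hz => by
      have h1 : ContDiffAt ℝ 0 (fderiv ℝ q) z := (hqc z hz).fderiv_right (by norm_num)
      exact h1.continuousAt.continuousWithinAt)
  obtain ⟨q₁, hq₁⟩ := hcpt.exists_bound_of_continuousOn (f := q)
    (fun z hz => (hqc z hz).continuousAt.continuousWithinAt)
  obtain ⟨L₁, hL₁⟩ := hcpt.exists_bound_of_continuousOn (f := fun z => fderiv ℝ Z z)
    (fun z hz => by
      have h1 : ContDiffAt ℝ 0 (fderiv ℝ Z) z := (hZc z hz).fderiv_right (by norm_num)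
      exact h1.continuousAt.continuousWithinAt)
  have hL₁0 : 0 ≤ L₁ := (norm_nonneg _).trans (hL₁ 0 h0c)
  have hlip : ∀ z ∈ ball (0 : ℂ) ρ, ∀ w ∈ ball (0 : ℂ) ρ, ‖Z z - Z w‖ ≤ L₁ * ‖z - w‖ := by
    intro z hz w hw
    exact (convex_ball (0 : ℂ) ρ).norm_image_sub_le_of_norm_fderiv_le (𝕜 := ℝ)
      (fun z hz => (hZc z (hbs hz)).differentiableAt (by norm_num))
      (fun z hz => hL₁ z (hbs hz)) hw hz
  obtain ⟨L₂, hL₂⟩ := (isCompact_closedBall x₀ (L₁ * ρ)).exists_bound_of_continuousOn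
    (f := fun x => fderiv ℝ W x)
    (fun z _ => (hW.continuous_fderiv (by norm_num)).continuousAt.continuousWithinAt)
  have hin : ∀ z ∈ ball (0 : ℂ) ρ, Z z ∈ closedBall x₀ (L₁ * ρ) := by
    intro z hz
    rw [mem_closedBall, dist_eq_norm, ← hZ0']
    refine (hlip z hz 0 (mem_ball_self hρ)).trans ?_
    rw [sub_zero]
    have hz' : ‖z‖ < ρ := by simpa using hz
    exact mul_le_mul_of_nonneg_left hz'.le hL₁0
  have hanti : ∀ z ∈ ball (0 : ℂ) ρ, ∀ w ∈ ball (0 : ℂ) ρ, ‖z - w‖ ≤ L₂ * ‖Z z - Z w‖ := by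
    intro z hz w hw
    have h1 := (convex_closedBall x₀ (L₁ * ρ)).norm_image_sub_le_of_norm_fderiv_le (𝕜 := ℝ)
      (f := W) (fun x _ => hW.differentiable (by norm_num) x) (fun x hx => hL₂ x hx)
      (hin w hw) (hin z hz)
    rwa [hWZ z (hbs hz), hWZ w (hbs hw)] at h1
  -- the image of the ball
  obtain ⟨V', hV'⟩ : ∃ V' : Set E2, V' = Φ.source ∩ Φ ⁻¹' ball (0 : ℂ) ρ := ⟨_, rfl⟩
  have hV'o : IsOpen V' := by
    rw [hV']
    exact Φ.isOpen_inter_preimage isOpen_ball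
  have hZW : ∀ x ∈ V', Z (W x) = x := fun x hx => by
    rw [hV'] at hx
    rw [hZ, ← hΦ']
    exact Φ.left_inv hx.1
  have hWb : ∀ x ∈ V', W x ∈ ball (0 : ℂ) ρ := fun x hx => by
    rw [hV'] at hx
    rw [← hΦ']
    exact hx.2
  have hV'V : ∀ x ∈ V', x ∈ V := fun x hx => by
    have h1 := hZV _ (hbs (hWb x hx))
    rwa [hZW x hx] at h1
  have hZV' : ∀ z ∈ ball (0 : ℂ) ρ, Z z ∈ V' := fun z hz => by
    rw [hV']
    refine ⟨?_, ?_⟩
    · rw [hZ]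
      exact Φ.map_target (hZt z (hbs hz))
    · rw [Set.mem_preimage, hΦ', hWZ z (hbs hz)]
      exact hz
  have hx₀V' : x₀ ∈ V' := by
    have h1 := hZV' 0 (mem_ball_self hρ)
    rwa [hZ0'] at h1
  refine ⟨ρ, max 1 (max L₁ L₂), q₁, l, Z, q, hρ, le_max_left _ _, ?_, ?_, hZ0', ?_, ?_, ?_, ?_,
    ?_, ?_, ?_, ?_, ?_⟩
  · exact (norm_nonneg _).trans (hq₁ 0 h0c)
  · exact (norm_nonneg _).trans (hl 0 h0c)
  · exact fun z hz => hVΩ (hZV z (hbs hz))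
  · refine Filter.mem_of_superset (hV'o.mem_nhds hx₀V') ?_
    intro x hx
    exact ⟨W x, hWb x hx, hZW x hx⟩
  · exact fun z hz => (hZc z (hbs hz)).contDiffWithinAt
  · intro z hz w hw
    refine (hlip z hz w hw).trans ?_
    exact mul_le_mul_of_nonneg_right ((le_max_left _ _).trans (le_max_right _ _)) (norm_nonneg _)
  · intro z hz w hw
    refine (hanti z hz w hw).trans ?_
    exact mul_le_mul_of_nonneg_right ((le_max_right _ _).trans (le_max_right _ _)) (norm_nonneg _)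
  · exact fun z hz => (hqc z (hbs hz)).differentiableAt (by norm_num)
  · exact fun z hz => hl z (hbs hz)
  · intro z hz
    refine ⟨?_, (le_abs_self _).trans (hq₁ z (hbs hz))⟩
    rw [hq]
    exact div_nonneg (h0 _ (hVΩ (hZV z (hbs hz)))).le (by positivity)
  · intro u hu z hz
    have hv : ∀ x ∈ V', ContDiffAt ℝ 2 (fun z => u (Z z)) (W x) := by
      intro x hx
      have h1 := hWb x hx
      have h2 : ContDiffAt ℝ 3 u (Z (W x)) :=
        hu.contDiffAt (hΩ.mem_nhds (hVΩ (hZV _ (hbs h1))))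
      exact (h2.comp (W x) (hZc _ (hbs h1))).of_le (by norm_num)
    have h1 := lb_comp (g := g) hV'o (fun x hx => h0 x (hVΩ (hV'V x hx)))
      (fun x hx => hs x (hVΩ (hV'V x hx))) (fun x hx => hdet x (hVΩ (hV'V x hx)))
      ((hW.of_le (by norm_num)).contDiffOn : ContDiffOn ℝ 2 W V')
      (fun x hx => (hVp x (hV'V x hx)).2) hv (hZV' z hz)
    have h2 : (fun y => (fun z => u (Z z)) (W y)) =ᶠ[𝓝 (Z z)] u := by
      filter_upwards [hV'o.mem_nhds (hZV' z hz)] with y hy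
      show u (Z (W y)) = u y
      rw [hZW y hy]
    rw [Param_lb h2, hWZ z (hbs hz)] at h1
    rw [h1, hq]
    have h3 : g (Z z) 0 0 ≠ 0 := (h0 _ (hVΩ (hZV z (hbs hz)))).ne'
    have h4 : ‖pd 0 W (Z z)‖ ≠ 0 := norm_ne_zero_iff.2 (hVp _ (hZV z (hbs hz))).1
    field_simp

end FC9
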