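import Mathlib

/-!
# MP_fc1c69_an, Layer 5, stub `Scale`: a scaled function that vanishes at the origin is small in `C^n`
-/

open scoped ContDiff
open Metric

namespace FC9

theorem Scale_bd {E F : Type*} [NormedAddCommGroup E] [NormedSpace ℝ E] [NormedAddCommGroup F]
    [NormedSpace ℝ F] {f : E → F} (hf : ContDiff ℝ ∞ f) (hc : HasCompactSupport f) (i : ℕ) :
    ∃ C, 0 ≤ C ∧ ∀ x, ‖iteratedFDeriv ℝ i f x‖ ≤ C := by
  have h1 : Continuous (iteratedFDeriv ℝ i f) := hf.continuous_iteratedFDeriv (by exact_mod_cast le_top)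
  obtain ⟨C, hC⟩ := h1.bounded_above_of_compact_support (hc.iteratedFDeriv i)
  exact ⟨max C 0, le_max_right _ _, fun x => (hC x).trans (le_max_left _ _)⟩

theorem Scale_comp {μ : ℂ → ℂ} (hμ : ContDiff ℝ ∞ μ) (ε : ℝ) (hε : 0 < ε) (i : ℕ) (x : ℂ) :
    ‖iteratedFDeriv ℝ i (fun x : ℂ => μ (ε * x)) x‖ ≤
      ε ^ i * ‖iteratedFDeriv ℝ i μ (ε * x)‖ := by
  let g : ℂ →L[ℝ] ℂ := ε • ContinuousLinearMap.id ℝ ℂ
  have hg : ∀ x, g x = ε * x := fun x => by
    show ε • x = ε * x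
    exact Complex.real_smul
  have hgn : ‖g‖ ≤ ε := by
    refine ContinuousLinearMap.opNorm_le_bound _ hε.le fun x => ?_
    rw [hg, norm_mul, Complex.norm_real, Real.norm_eq_abs, abs_of_pos hε]
  have h1 : (fun x : ℂ => μ (ε * x)) = μ ∘ g := by
    funext x
    show μ (ε * x) = μ (g x)
    rw [hg]
  rw [h1, g.iteratedFDeriv_comp_right hμ x (by exact_mod_cast le_top)]
  refine (ContinuousMultilinearMap.norm_compContinuousLinearMap_le _ _).trans ?_
  rw [Finset.prod_const, Finset.card_univ, Fintype.card_fin, hg, mul_comm]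
  exact mul_le_mul_of_nonneg_right (pow_le_pow_left₀ (norm_nonneg _) hgn i) (norm_nonneg _)

/-- PROOF.  `χ` and all its derivatives are bounded; the same for `μ` (compact supports).
`iteratedFDeriv ℝ i (fun x => μ (ε x)) x` has norm `≤ ε^i ‖iteratedFDeriv ℝ i μ (ε x)‖` (composition
with the linear map `x ↦ ε x`).  By `norm_iteratedFDeriv_mul_le` (or the bilinear version)
`‖D^n (χ μ(ε ·))(x)‖ ≤ ∑ i, C(n,i) ‖D^i (μ(ε ·)) x‖ ‖D^{n-i} χ x‖`.  For `i ≥ 1` the factor is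
`≤ ε C`; for `i = 0` it is `|μ (ε x)| ≤ C ε |x|` (`μ 0 = 0`, `μ` Lipschitz), and `|x| ≤ R` on the
support of `χ` (outside the topological support everything vanishes). -/
theorem scaled_small {μ : ℂ → ℂ} (hμ : ContDiff ℝ ∞ μ) (hμc : HasCompactSupport μ) (h0 : μ 0 = 0)
    {χ : ℂ → ℝ} (hχ : ContDiff ℝ ∞ χ) (hχc : HasCompactSupport χ) (n : ℕ) {δ : ℝ} (hδ : 0 < δ) :
    ∃ ε₀ > 0, ∀ ε : ℝ, 0 < ε → ε < ε₀ → ∀ x : ℂ,
      ‖iteratedFDeriv ℝ n (fun x : ℂ => (χ x : ℂ) * μ (ε * x)) x‖ ≤ δ := by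
  choose A hA0 hA using fun i => Scale_bd hχ hχc i
  choose B hB0 hB using fun i => Scale_bd hμ hμc i
  -- the weighted derivative of the cut-off
  obtain ⟨W, hW⟩ : ∃ W, ∀ x : ℂ, ‖‖iteratedFDeriv ℝ n χ x‖ * ‖x‖‖ ≤ W := by
    have h1 : Continuous (iteratedFDeriv ℝ n χ) :=
      hχ.continuous_iteratedFDeriv (by exact_mod_cast le_top)
    have h2 : HasCompactSupport fun x : ℂ => ‖iteratedFDeriv ℝ n χ x‖ * ‖x‖ :=
      (hχc.iteratedFDeriv n).norm.mul_right
    exact (h1.norm.mul continuous_norm).bounded_above_of_compact_support h2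
  have hlip : ∀ y : ℂ, ‖μ y‖ ≤ B 1 * ‖y‖ := by
    intro y
    have h1 := Convex.norm_image_sub_le_of_norm_fderiv_le (𝕜 := ℝ) (f := μ) (s := Set.univ)
      (C := B 1) (x := 0) (y := y)
      (fun z _ => (hμ.differentiable (by simp)) z)
      (fun z _ => by
        have h2 := hB 1 z
        rwa [norm_iteratedFDeriv_one] at h2) convex_univ (Set.mem_univ _) (Set.mem_univ _)
    rwa [h0, sub_zero, sub_zero] at h1
  obtain ⟨K, hK⟩ : ∃ K : ℝ, K = ∑ i ∈ Finset.range (n + 1),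
      (n.choose i : ℝ) * (A i * B (n - i) + |W| * B 1) := ⟨_, rfl⟩
  have hK0 : 0 ≤ K := by
    rw [hK]
    refine Finset.sum_nonneg fun i _ => ?_
    have h1 := mul_nonneg (hA0 i) (hB0 (n - i))
    have h2 := mul_nonneg (abs_nonneg W) (hB0 1)
    positivity
  refine ⟨min 1 (δ / (K + 1)), by positivity, fun ε hε hε1 x => ?_⟩
  have hε2 : ε ≤ 1 := (hε1.trans_le (min_le_left _ _)).le
  have hε3 : ε * (K + 1) ≤ δ := by
    have h1 := hε1.trans_le (min_le_right _ _)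
    rw [lt_div_iff₀ (by linarith)] at h1
    exact h1.le
  have hg : ContDiff ℝ ∞ (fun x : ℂ => μ (ε * x)) := by
    refine hμ.comp ?_
    exact contDiff_const.mul contDiff_id
  have h1 : (fun x : ℂ => (χ x : ℂ) * μ (ε * x)) = fun x => χ x • μ (ε * x) := by
    funext x
    exact Complex.real_smul.symm
  rw [h1]
  refine (norm_iteratedFDeriv_smul_le hχ hg x (n := n) (by exact_mod_cast le_top)).trans ?_
  have h2 : ∀ i ∈ Finset.range (n + 1), (n.choose i : ℝ) * ‖iteratedFDeriv ℝ i χ x‖ *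
      ‖iteratedFDeriv ℝ (n - i) (fun x : ℂ => μ (ε * x)) x‖ ≤
      ε * ((n.choose i : ℝ) * (A i * B (n - i) + |W| * B 1)) := by
    intro i hi
    rw [Finset.mem_range] at hi
    have h3 : ‖iteratedFDeriv ℝ i χ x‖ * ‖iteratedFDeriv ℝ (n - i) (fun x : ℂ => μ (ε * x)) x‖ ≤
        ε * (A i * B (n - i) + |W| * B 1) := by
      by_cases hin : i = n
      · subst hin
        rw [Nat.sub_self, norm_iteratedFDeriv_zero]
        have h4 := hlip (ε * x)
        rw [norm_mul, Complex.norm_real, Real.norm_eq_abs, abs_of_pos hε] at h4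
        have h5 := hW x
        rw [Real.norm_eq_abs] at h5
        have h6 : ‖iteratedFDeriv ℝ i χ x‖ * ‖x‖ ≤ |W| :=
          ((le_abs_self _).trans h5).trans (le_abs_self _)
        have h7 : ‖iteratedFDeriv ℝ i χ x‖ * ‖μ (ε * x)‖ ≤
            ‖iteratedFDeriv ℝ i χ x‖ * (B 1 * (ε * ‖x‖)) :=
          mul_le_mul_of_nonneg_left h4 (norm_nonneg _)
        have h8 : ‖iteratedFDeriv ℝ i χ x‖ * (B 1 * (ε * ‖x‖)) =
            ε * B 1 * (‖iteratedFDeriv ℝ i χ x‖ * ‖x‖) := by ring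
        have h9 : ε * B 1 * (‖iteratedFDeriv ℝ i χ x‖ * ‖x‖) ≤ ε * B 1 * |W| :=
          mul_le_mul_of_nonneg_left h6 (mul_nonneg hε.le (hB0 1))
        have h10 : 0 ≤ ε * (A i * B 0) :=
          mul_nonneg hε.le (mul_nonneg (hA0 i) (hB0 0))
        calc _ ≤ ε * B 1 * |W| := by linarith
          _ ≤ ε * (A i * B 0 + |W| * B 1) := by linarith
      · have h4 := Scale_comp hμ ε hε (n - i) x
        have h5 : ε ^ (n - i) ≤ ε := by
          have h6 := pow_le_pow_of_le_one hε.le hε2 (show 1 ≤ n - i by omega)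
          rwa [pow_one] at h6
        have h6 : ‖iteratedFDeriv ℝ (n - i) (fun x : ℂ => μ (ε * x)) x‖ ≤ ε * B (n - i) :=
          h4.trans (mul_le_mul h5 (hB _ _) (norm_nonneg _) hε.le)
        have h7 := mul_le_mul (hA i x) h6 (norm_nonneg _) (hA0 i)
        have h8 : 0 ≤ ε * (|W| * B 1) :=
          mul_nonneg hε.le (mul_nonneg (abs_nonneg _) (hB0 1))
        calc _ ≤ A i * (ε * B (n - i)) := h7
          _ ≤ ε * (A i * B (n - i) + |W| * B 1) := by linarith
    have h4 := mul_le_mul_of_nonneg_left h3 (Nat.cast_nonneg (α := ℝ) (n.choose i))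
    calc _ = (n.choose i : ℝ) * (‖iteratedFDeriv ℝ i χ x‖ *
        ‖iteratedFDeriv ℝ (n - i) (fun x : ℂ => μ (ε * x)) x‖) := by ring
      _ ≤ _ := h4
      _ = _ := by ring
  refine (Finset.sum_le_sum h2).trans ?_
  rw [← Finset.mul_sum, ← hK]
  linarith

end FC9
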