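import Pool.Agent.W_fc1c69_h9.Fou
import Pool.Agent.W_fc1c69_h9.Scale

/-!
# MP_fc1c69_an, Layer 5, stub `Small`: small weighted `L¹` norm of the Fourier transform
-/

open Complex MeasureTheory Metric
open scoped ContDiff

namespace FC9

open scoped SchwartzMap FourierTransform NNReal

/-- The weighted `L¹` norm of the Fourier transform is bounded by finitely many Schwartz
seminorms. -/
theorem Small_bound : ∃ s : Finset (ℕ × ℕ), ∃ C : ℝ, 0 ≤ C ∧ ∀ f : 𝓢(ℂ, ℂ),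
    Integrable (fun ξ : ℂ => wt ξ * ‖(𝓕 f : 𝓢(ℂ, ℂ)) ξ‖) ∧
      ∫ ξ : ℂ, wt ξ * ‖(𝓕 f : 𝓢(ℂ, ℂ)) ξ‖ ≤ C * s.sup (schwartzSeminormFamily ℂ ℂ ℂ) f := by
  let q : Seminorm ℂ 𝓢(ℂ, ℂ) :=
    ((Finset.Iic ((5, 0) : ℕ × ℕ)).sup (schwartzSeminormFamily ℂ ℂ ℂ)).comp
      (SchwartzMap.fourierTransformCLM ℂ : 𝓢(ℂ, ℂ) →L[ℂ] 𝓢(ℂ, ℂ)).toLinearMap
  have hq : Continuous q := by
    have h1 : Continuous (((Finset.Iic ((5, 0) : ℕ × ℕ)).sup (schwartzSeminormFamily ℂ ℂ ℂ) :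
        Seminorm ℂ 𝓢(ℂ, ℂ)) : 𝓢(ℂ, ℂ) → ℝ) :=
      Seminorm.continuous_finsetSup fun i _ =>
        (schwartz_withSeminorms ℂ ℂ ℂ).continuous_seminorm i
    exact h1.comp (SchwartzMap.fourierTransformCLM ℂ : 𝓢(ℂ, ℂ) →L[ℂ] 𝓢(ℂ, ℂ)).continuous
  obtain ⟨s, C, -, hC⟩ := Seminorm.bound_of_continuous (schwartz_withSeminorms ℂ ℂ ℂ) q hq
  have hint : Integrable (fun ξ : ℂ => (1 + ‖ξ‖) ^ (-(3 : ℝ))) := by
    refine integrable_one_add_norm ?_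
    rw [Complex.finrank_real_complex]
    norm_num
  have hpt : ∀ f : 𝓢(ℂ, ℂ), ∀ ξ : ℂ, wt ξ * ‖(𝓕 f : 𝓢(ℂ, ℂ)) ξ‖ ≤
      (2 ^ 5 * q f) * (1 + ‖ξ‖) ^ (-(3 : ℝ)) := by
    intro f ξ
    have h1 := SchwartzMap.one_add_le_sup_seminorm_apply (𝕜 := ℂ) (m := (5, 0)) (k := 5) (n := 0)
      le_rfl le_rfl (𝓕 f : 𝓢(ℂ, ℂ)) ξ
    rw [norm_iteratedFDeriv_zero] at h1
    have h2 : (1 + ‖ξ‖) ^ 5 * ‖(𝓕 f : 𝓢(ℂ, ℂ)) ξ‖ ≤ 2 ^ 5 * q f := h1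
    have h3 : 0 < 1 + ‖ξ‖ := by positivity
    rw [Real.rpow_neg h3.le]
    have h4 : (1 + ‖ξ‖) ^ (3 : ℝ) = (1 + ‖ξ‖) ^ (3 : ℕ) := by
      exact_mod_cast Real.rpow_natCast (1 + ‖ξ‖) 3
    rw [h4, ← div_eq_mul_inv, le_div_iff₀ (by positivity)]
    calc _ = (1 + ‖ξ‖) ^ 5 * ‖(𝓕 f : 𝓢(ℂ, ℂ)) ξ‖ := by
          rw [wt]; ring
      _ ≤ _ := h2
  have hq0 : ∀ f, 0 ≤ q f := fun f => apply_nonneg q f
  refine ⟨s, 2 ^ 5 * C * ∫ ξ : ℂ, (1 + ‖ξ‖) ^ (-(3 : ℝ)), ?_, fun f => ⟨?_, ?_⟩⟩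
  · have h1 : 0 ≤ ∫ ξ : ℂ, (1 + ‖ξ‖) ^ (-(3 : ℝ)) := integral_nonneg fun ξ => by positivity
    positivity
  · refine (hint.const_mul (2 ^ 5 * q f)).mono' ?_ (Filter.Eventually.of_forall fun ξ => ?_)
    · refine Continuous.aestronglyMeasurable ?_
      have h1 : Continuous wt := by
        unfold wt
        fun_prop
      exact h1.mul (𝓕 f : 𝓢(ℂ, ℂ)).continuous.norm
    · have h1 : 0 ≤ wt ξ * ‖(𝓕 f : 𝓢(ℂ, ℂ)) ξ‖ := by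
        unfold wt
        positivity
      rw [Real.norm_eq_abs, abs_of_nonneg h1]
      exact hpt f ξ
  · have h1 : ∫ ξ : ℂ, wt ξ * ‖(𝓕 f : 𝓢(ℂ, ℂ)) ξ‖ ≤
        ∫ ξ : ℂ, (2 ^ 5 * q f) * (1 + ‖ξ‖) ^ (-(3 : ℝ)) := by
      refine integral_mono_of_nonneg (Filter.Eventually.of_forall fun ξ => ?_)
        (hint.const_mul (2 ^ 5 * q f)) (Filter.Eventually.of_forall fun ξ => hpt f ξ)
      show 0 ≤ wt ξ * ‖(𝓕 f : 𝓢(ℂ, ℂ)) ξ‖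
      unfold wt
      positivity
    refine h1.trans ?_
    rw [integral_const_mul]
    have h2 : q f ≤ C * s.sup (schwartzSeminormFamily ℂ ℂ ℂ) f := hC f
    have h3 : 0 ≤ ∫ ξ : ℂ, (1 + ‖ξ‖) ^ (-(3 : ℝ)) := integral_nonneg fun ξ => by positivity
    calc _ ≤ (2 ^ 5 * (C * s.sup (schwartzSeminormFamily ℂ ℂ ℂ) f)) *
        ∫ ξ : ℂ, (1 + ‖ξ‖) ^ (-(3 : ℝ)) := by gcongr
      _ = _ := by ring

/-- PROOF.  Let `χ` be a smooth bump function, `χ = 1` on `ball 0 1`, compact support (for instance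
`ContDiffBump` with radii `1, 2`).  `F ε x = χ x * μ (ε x)` is smooth with compact support in
`closedBall 0 2`, hence a Schwartz map (`HasCompactSupport.toSchwartzMap` or a structure literal).
By `scaled_small`, for every pair `(k, n)` and `δ' > 0` the Schwartz seminorm `(k, n)` of `F ε` is
`≤ 2^k δ'` for small `ε`; only finitely many pairs are needed:
the set `{f : 𝓢(ℂ, ℂ) | ∫ wt ξ ‖𝓕 f ξ‖ < δ}` is a neighbourhood of `0`, because `𝓕` is continuous on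
Schwartz space and `∫ wt ξ ‖g ξ‖ ≤ C * sup seminorm_{(6,0)}` (`SchwartzMap.one_add_le_sup_seminorm_apply`,
`integrable_one_add_norm`, dimension 2); and the topology is given by the seminorms.
Put `m = 𝓕 (F ε)`; `m` is Schwartz.  Fourier inversion (`Continuous.fourierInv_fourier_eq` or the
Schwartz version) gives `∫ ee ξ z * m ξ = F ε z = μ (ε z)` for `z ∈ ball 0 1`
(`Real.fourierInv_eq'`, `ee` is this exponential, the inner product is symmetric). -/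
theorem small_fourier {μ : ℂ → ℂ} (hμ : ContDiff ℝ ∞ μ) (hμc : HasCompactSupport μ) (h0 : μ 0 = 0)
    {δ : ℝ} (hδ : 0 < δ) :
    ∃ ε : ℝ, 0 < ε ∧ ∃ m : ℂ → ℂ, Continuous m ∧ Integrable (fun ξ => wt ξ * ‖m ξ‖) ∧
      ∫ ξ, wt ξ * ‖m ξ‖ ≤ δ ∧ ∀ z ∈ ball (0 : ℂ) 1, ∫ ξ, ee ξ z * m ξ = μ (ε * z) := by
  obtain ⟨s, C, hC0, hC⟩ := Small_bound
  -- the cut-off
  let b : ContDiffBump (0 : ℂ) := ⟨1, 2, one_pos, one_lt_two⟩
  let χ : ℂ → ℝ := fun x => b x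
  have hχ : ContDiff ℝ ∞ χ := b.contDiff
  have hχc : HasCompactSupport χ := b.hasCompactSupport
  have hχt : tsupport χ = closedBall 0 2 := b.tsupport_eq
  have hχ1 : ∀ z ∈ ball (0 : ℂ) 1, χ z = 1 := fun z hz =>
    b.one_of_mem_closedBall (ball_subset_closedBall hz)
  -- the size of the derivatives
  obtain ⟨δ', hδ'⟩ : ∃ δ' : ℝ, δ' = δ / (C + 1) := ⟨_, rfl⟩
  have hδ'0 : 0 < δ' := by rw [hδ']; positivity
  have hsmall : ∀ i ∈ s, ∃ ε₀ > 0, ∀ ε : ℝ, 0 < ε → ε < ε₀ → ∀ x : ℂ,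
      ‖x‖ ^ i.1 * ‖iteratedFDeriv ℝ i.2 (fun x : ℂ => (χ x : ℂ) * μ (ε * x)) x‖ ≤ δ' := by
    intro i _
    obtain ⟨ε₀, hε₀, h⟩ := scaled_small hμ hμc h0 hχ hχc i.2
      (δ := δ' / 2 ^ i.1) (by positivity)
    refine ⟨ε₀, hε₀, fun ε hε hε1 x => ?_⟩
    by_cases hx : x ∈ closedBall (0 : ℂ) 2
    · have h1 := h ε hε hε1 x
      have h2 : ‖x‖ ≤ 2 := by simpa using hx
      calc _ ≤ 2 ^ i.1 * (δ' / 2 ^ i.1) := by gcongr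
        _ = δ' := by field_simp
    · have h1 : iteratedFDeriv ℝ i.2 (fun x : ℂ => (χ x : ℂ) * μ (ε * x)) x = 0 := by
        by_contra h2
        have h3 : x ∈ tsupport (fun x : ℂ => (χ x : ℂ) * μ (ε * x)) :=
          support_iteratedFDeriv_subset (𝕜 := ℝ) i.2 h2
        have h4 : tsupport (fun x : ℂ => (χ x : ℂ) * μ (ε * x)) ⊆ tsupport χ := by
          refine closure_mono fun y hy => ?_
          rw [Function.mem_support] at hy ⊢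
          intro h5
          exact hy (by simp [h5])
        rw [hχt] at h4
        exact hx (h4 h3)
      rw [h1, norm_zero, mul_zero]
      exact hδ'0.le
  obtain ⟨ε, hε, hεs⟩ : ∃ ε : ℝ, 0 < ε ∧ ∀ i ∈ s, ∀ x : ℂ,
      ‖x‖ ^ i.1 * ‖iteratedFDeriv ℝ i.2 (fun x : ℂ => (χ x : ℂ) * μ (ε * x)) x‖ ≤ δ' := by
    have h1 : ∀ i ∈ s, ∀ᶠ ε : ℝ in nhdsWithin 0 (Set.Ioi 0), ∀ x : ℂ,
        ‖x‖ ^ i.1 * ‖iteratedFDeriv ℝ i.2 (fun x : ℂ => (χ x : ℂ) * μ (ε * x)) x‖ ≤ δ' := by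
      intro i hi
      obtain ⟨ε₀, hε₀, h⟩ := hsmall i hi
      filter_upwards [Ioo_mem_nhdsGT hε₀] with ε hε
      exact h ε hε.1 hε.2
    have h2 := (s.eventually_all (l := nhdsWithin (0 : ℝ) (Set.Ioi 0))).2 h1
    obtain ⟨ε, h3, h4⟩ := (h2.and self_mem_nhdsWithin).exists
    exact ⟨ε, h4, h3⟩
  -- the Schwartz function
  have hF : ContDiff ℝ ∞ (fun x : ℂ => (χ x : ℂ) * μ (ε * x)) := by
    refine ContDiff.mul ?_ ?_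
    · exact (Complex.ofRealCLM.contDiff).comp hχ
    · exact hμ.comp (contDiff_const.mul contDiff_id)
  have hFc : HasCompactSupport (fun x : ℂ => (χ x : ℂ) * μ (ε * x)) := by
    have h1 : HasCompactSupport (fun x : ℂ => (χ x : ℂ)) := hχc.comp_left (g := fun t : ℝ => (t : ℂ)) (by simp)
    exact h1.mul_right
  let f : 𝓢(ℂ, ℂ) := hFc.toSchwartzMap hF
  have hf : ∀ x, f x = (χ x : ℂ) * μ (ε * x) := fun x => rfl
  have hsup : s.sup (schwartzSeminormFamily ℂ ℂ ℂ) f ≤ δ' := by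
    refine Seminorm.finset_sup_apply_le hδ'0.le fun i hi => ?_
    exact SchwartzMap.seminorm_le_bound ℂ i.1 i.2 f hδ'0.le (hεs i hi)
  obtain ⟨h1, h2⟩ := hC f
  refine ⟨ε, hε, fun ξ => (𝓕 f : 𝓢(ℂ, ℂ)) ξ, (𝓕 f : 𝓢(ℂ, ℂ)).continuous, h1, ?_, ?_⟩
  · refine h2.trans ?_
    calc _ ≤ C * δ' := by gcongr
      _ ≤ (C + 1) * δ' := by nlinarith
      _ = δ := by rw [hδ']; field_simp
  · intro z hz
    have h3 : (𝓕⁻ (𝓕 f : 𝓢(ℂ, ℂ)) : 𝓢(ℂ, ℂ)) = f := by simp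
    have h4 : 𝓕⁻ ((𝓕 f : 𝓢(ℂ, ℂ)) : ℂ → ℂ) z = f z := by
      rw [← SchwartzMap.fourierInv_coe, h3]
    rw [Real.fourierInv_eq'] at h4
    rw [hf, hχ1 z hz] at h4
    simp only [Complex.ofReal_one, one_mul] at h4
    rw [← h4]
    refine integral_congr_ae (Filter.Eventually.of_forall fun ξ => ?_)
    show ee ξ z * (𝓕 f : 𝓢(ℂ, ℂ)) ξ =
      cexp (↑(2 * Real.pi * inner ℝ ξ z) * I) * (𝓕 f : 𝓢(ℂ, ℂ)) ξ
    rw [ee]
    congr 2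
    push_cast
    ring

end FC9
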